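import Pool.Agent.Lib_helper9.Cartan.Covol

/-!
# The Cartan subgroup of positive diagonal matrices
-/

namespace Pool.Agent.CartanLattice

open Matrix Topology

/-- the group of diagonal matrices with positive entries in `SL(n, ℝ)` -/
def posDiag (n : ℕ) : Subgroup (SLR n) where
  carrier := {g | ∃ d : Fin n → ℝ, (∀ i, 0 < d i) ∧
    (g : Matrix (Fin n) (Fin n) ℝ) = diagonal d}
  one_mem' := ⟨fun _ => 1, fun _ => one_pos, by simp⟩
  mul_mem' := by
    rintro a b ⟨d, hd, hd'⟩ ⟨e, he, he'⟩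
    refine ⟨fun i => d i * e i, fun i => mul_pos (hd i) (he i), ?_⟩
    rw [Matrix.SpecialLinearGroup.coe_mul, hd', he', diagonal_mul_diagonal]
  inv_mem' := by
    rintro a ⟨d, hd, hd'⟩
    refine ⟨fun i => (d i)⁻¹, fun i => inv_pos.2 (hd i), ?_⟩
    have h1 : (a : Matrix (Fin n) (Fin n) ℝ) * diagonal (fun i => (d i)⁻¹) = 1 := by
      rw [hd', diagonal_mul_diagonal]
      have : (fun i => d i * (d i)⁻¹) = fun _ => (1 : ℝ) := by
        funext i
        exact mul_inv_cancel₀ (hd i).ne'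
      rw [this, diagonal_one]
    calc ((a⁻¹ : SLR n) : Matrix (Fin n) (Fin n) ℝ)
        = ((a⁻¹ : SLR n) : Matrix (Fin n) (Fin n) ℝ) *
          ((a : Matrix (Fin n) (Fin n) ℝ) * diagonal (fun i => (d i)⁻¹)) := by
          rw [h1, mul_one]
      _ = diagonal (fun i => (d i)⁻¹) := by
          rw [← mul_assoc, ← Matrix.SpecialLinearGroup.coe_mul, inv_mul_cancel]
          simp

lemma mem_posDiag {n : ℕ} {g : SLR n} : g ∈ posDiag n ↔ ∃ d : Fin n → ℝ, (∀ i, 0 < d i) ∧
    (g : Matrix (Fin n) (Fin n) ℝ) = diagonal d := Iff.rfl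

variable {m : ℕ}

/-- exponents with zero sum -/
def ex (t : Fin m → ℝ) : Fin (m + 1) → ℝ := Fin.snoc (α := fun _ => ℝ) t (-∑ j, t j)

lemma ex_castSucc (t : Fin m → ℝ) (i : Fin m) : ex t i.castSucc = t i := by
  simp [ex]

lemma ex_last (t : Fin m → ℝ) : ex t (Fin.last m) = -∑ j, t j := by
  simp [ex]

lemma ex_sum (t : Fin m → ℝ) : ∑ i, ex t i = 0 := by
  rw [Fin.sum_univ_castSucc]
  simp [ex_castSucc, ex_last]

lemma ex_add (s t : Fin m → ℝ) (i : Fin (m + 1)) : ex (s + t) i = ex s i + ex t i := by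
  refine Fin.lastCases ?_ (fun i => ?_) i
  · simp only [ex_last, Pi.add_apply, Finset.sum_add_distrib]; ring
  · simp only [ex_castSucc, Pi.add_apply]

lemma ex_continuous (i : Fin (m + 1)) : Continuous fun t : Fin m → ℝ => ex t i := by
  refine Fin.lastCases ?_ (fun i => ?_) i
  · simp only [ex_last]; fun_prop
  · simp only [ex_castSucc]; fun_prop

/-- parametrisation of the positive diagonal group -/
noncomputable def Phi (t : Fin m → ℝ) : SLR (m + 1) :=
  ⟨diagonal fun i => Real.exp (ex t i), by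
    rw [det_diagonal, ← Real.exp_sum, ex_sum, Real.exp_zero]⟩

lemma Phi_coe (t : Fin m → ℝ) : (Phi t : Matrix (Fin (m + 1)) (Fin (m + 1)) ℝ) =
    diagonal fun i => Real.exp (ex t i) := rfl

lemma Phi_mem (t : Fin m → ℝ) : Phi t ∈ posDiag (m + 1) :=
  ⟨_, fun _ => Real.exp_pos _, rfl⟩

lemma Phi_add (s t : Fin m → ℝ) : Phi (s + t) = Phi s * Phi t := by
  apply Subtype.ext
  rw [Matrix.SpecialLinearGroup.coe_mul, Phi_coe, Phi_coe, Phi_coe, diagonal_mul_diagonal]
  congr 1
  funext i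
  rw [ex_add, Real.exp_add]

lemma Phi_continuous : Continuous (Phi : (Fin m → ℝ) → SLR (m + 1)) := by
  refine Continuous.subtype_mk ?_ _
  exact Continuous.matrix_diagonal (continuous_pi fun i =>
    Real.continuous_exp.comp (ex_continuous i))

/-- the logarithm of the first `m` diagonal entries -/
noncomputable def Lg (g : SLR (m + 1)) : Fin m → ℝ :=
  fun i => Real.log ((g : Matrix (Fin (m + 1)) (Fin (m + 1)) ℝ) i.castSucc i.castSucc)

lemma Lg_Phi (t : Fin m → ℝ) : Lg (Phi t) = t := by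
  funext i
  simp [Lg, Phi_coe, ex_castSucc]

lemma Phi_Lg {g : SLR (m + 1)} (hg : g ∈ posDiag (m + 1)) : Phi (Lg g) = g := by
  obtain ⟨d, hd, hgd⟩ := hg
  have hdet : ∏ i, d i = 1 := by
    have := g.2
    rwa [hgd, det_diagonal] at this
  have hsum : ∑ i, Real.log (d i) = 0 := by
    rw [← Real.log_prod (fun i _ => (hd i).ne'), hdet, Real.log_one]
  have hex : ∀ i, ex (Lg g) i = Real.log (d i) := by
    intro i
    refine Fin.lastCases ?_ (fun i => ?_) i
    · rw [ex_last]
      rw [Fin.sum_univ_castSucc] at hsum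
      have : ∑ j, Lg g j = ∑ j : Fin m, Real.log (d j.castSucc) := by
        refine Finset.sum_congr rfl fun j _ => ?_
        simp [Lg, hgd]
      rw [this]; linarith
    · rw [ex_castSucc]; simp [Lg, hgd]
  apply Subtype.ext
  rw [Phi_coe, hgd]
  congr 1
  funext i
  rw [hex, Real.exp_log (hd i)]

lemma posDiag_eq_range : (posDiag (m + 1) : Set (SLR (m + 1))) = Set.range (Phi (m := m)) := by
  ext g
  constructor
  · intro hg
    exact ⟨Lg g, Phi_Lg hg⟩
  · rintro ⟨t, rfl⟩
    exact Phi_mem t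

lemma Phi_inj : Function.Injective (Phi (m := m)) := fun s t h => by
  rw [← Lg_Phi s, ← Lg_Phi t, h]

/-- `A ≅ ℝ^m` as topological groups -/
noncomputable def posDiagEquiv : posDiag (m + 1) ≃ₜ* Multiplicative (Fin m → ℝ) where
  toFun g := Multiplicative.ofAdd (Lg g.1)
  invFun t := ⟨Phi t.toAdd, Phi_mem _⟩
  left_inv g := Subtype.ext (Phi_Lg g.2)
  right_inv t := by
    change Multiplicative.ofAdd (Lg (Phi t.toAdd)) = t
    rw [Lg_Phi]; rfl
  map_mul' g h := by
    change Multiplicative.ofAdd (Lg (g.1 * h.1)) =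
      Multiplicative.ofAdd (Lg g.1) * Multiplicative.ofAdd (Lg h.1)
    rw [← ofAdd_add]
    congr 1
    apply Phi_inj
    rw [Phi_add, Phi_Lg g.2, Phi_Lg h.2, Phi_Lg (mul_mem g.2 h.2)]
  continuous_toFun := by
    refine continuous_ofAdd.comp (continuous_pi fun i => ?_)
    refine Continuous.log ?_ ?_
    · have : Continuous fun g : posDiag (m + 1) =>
          ((g.1 : SLR (m + 1)) : Matrix (Fin (m + 1)) (Fin (m + 1)) ℝ) :=
        continuous_subtype_val.comp continuous_subtype_val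
      exact this.matrix_elem _ _
    · intro g
      obtain ⟨d, hd, hgd⟩ := g.2
      rw [hgd, diagonal_apply_eq]
      exact (hd _).ne'
  continuous_invFun := by
    exact (Phi_continuous.comp continuous_toAdd).subtype_mk _

/-! ### `posDiag` is a Cartan subgroup -/

lemma posDiag_connected : IsConnected (posDiag (m + 1) : Set (SLR (m + 1))) := by
  rw [posDiag_eq_range]
  exact isConnected_range Phi_continuous

lemma posDiag_split : IsDiagonalizableOverR (posDiag (m + 1)) := by
  refine ⟨1, ?_⟩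
  rintro b ⟨d, -, hbd⟩
  rw [hbd]
  simp only [Units.val_one, one_mul, inv_one, mul_one]
  exact isDiag_diagonal d

lemma commute_of_split {n : ℕ} {B : Subgroup (SLR n)} (hB : IsDiagonalizableOverR B) {a b : SLR n}
    (ha : a ∈ B) (hb : b ∈ B) : (a : Matrix (Fin n) (Fin n) ℝ) * (b : Matrix (Fin n) (Fin n) ℝ) =
      (b : Matrix (Fin n) (Fin n) ℝ) * (a : Matrix (Fin n) (Fin n) ℝ) := by
  obtain ⟨P, hP⟩ := hB
  have h1 := (isDiag_iff_diagonal_diag _).1 (hP a ha)
  have h2 := (isDiag_iff_diagonal_diag _).1 (hP b hb)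
  set p : Matrix (Fin n) (Fin n) ℝ := (P : Matrix (Fin n) (Fin n) ℝ) with hp
  set q : Matrix (Fin n) (Fin n) ℝ := ((P⁻¹ : GL (Fin n) ℝ) : Matrix (Fin n) (Fin n) ℝ) with hq
  have hqp : q * p = 1 := by
    rw [hp, hq, ← Units.val_mul, inv_mul_cancel]; rfl
  have hcomm : (p * (a : Matrix (Fin n) (Fin n) ℝ) * q) * (p * (b : Matrix (Fin n) (Fin n) ℝ) * q) =
      (p * (b : Matrix (Fin n) (Fin n) ℝ) * q) * (p * (a : Matrix (Fin n) (Fin n) ℝ) * q) := by
    rw [← h1, ← h2, diagonal_mul_diagonal, diagonal_mul_diagonal]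
    congr 1
    funext i
    exact mul_comm _ _
  have e : ∀ x y : Matrix (Fin n) (Fin n) ℝ, q * ((p * x * q) * (p * y * q)) * p = x * y := by
    intro x y
    calc q * ((p * x * q) * (p * y * q)) * p = (q * p) * x * (q * p) * y * (q * p) := by
          simp only [mul_assoc]
      _ = x * y := by rw [hqp]; simp
  rw [← e, hcomm, e]

lemma dg_mem_posDiag {i j : Fin (m + 1)} (hij : i ≠ j) {t : ℝ} (ht : 0 < t) :
    dg hij t ∈ posDiag (m + 1) := by
  refine ⟨_, fun k => ?_, dg_coe hij ht.ne'⟩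
  split_ifs
  · exact ht
  · exact inv_pos.2 ht
  · exact one_pos

lemma isCartan_posDiag : IsCartan (posDiag (m + 1)) := by
  refine ⟨⟨posDiag_connected, posDiag_split⟩, ?_⟩
  rintro B ⟨hBc, hBs⟩ hAB
  have hdiag : ∀ b ∈ B, ∀ k l, k ≠ l → (b : Matrix (Fin (m + 1)) (Fin (m + 1)) ℝ) k l = 0 := by
    intro b hb k l hkl
    have hc := commute_of_split hBs hb (hAB (dg_mem_posDiag hkl (t := 2) (by norm_num)))
    rw [dg_coe hkl (by norm_num : (2 : ℝ) ≠ 0)] at hc
    have h := congrFun (congrFun hc k) l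
    rw [mul_diagonal, diagonal_mul] at h
    simp only [hkl.symm, if_false, if_true] at h
    linarith
  have hdiag' : ∀ b ∈ B, (b : Matrix (Fin (m + 1)) (Fin (m + 1)) ℝ) =
      diagonal fun i => (b : Matrix (Fin (m + 1)) (Fin (m + 1)) ℝ) i i := by
    intro b hb
    ext k l
    by_cases hkl : k = l
    · subst hkl; simp
    · rw [hdiag b hb k l hkl, diagonal_apply_ne _ hkl]
  have hne : ∀ b ∈ B, ∀ i, (b : Matrix (Fin (m + 1)) (Fin (m + 1)) ℝ) i i ≠ 0 := by
    intro b hb i h0
    have hdet := b.2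
    rw [hdiag' b hb, det_diagonal] at hdet
    have hz : ∏ i, (b : Matrix (Fin (m + 1)) (Fin (m + 1)) ℝ) i i = 0 :=
      Finset.prod_eq_zero (Finset.mem_univ i) h0
    exact zero_ne_one (hz.symm.trans hdet)
  have hpos : ∀ b ∈ B, ∀ i, 0 < (b : Matrix (Fin (m + 1)) (Fin (m + 1)) ℝ) i i := by
    intro b hb i
    by_contra hcon
    push Not at hcon
    have hcont : Continuous fun g : SLR (m + 1) =>
        (g : Matrix (Fin (m + 1)) (Fin (m + 1)) ℝ) i i := continuous_subtype_val.matrix_elem i i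
    have hiv := hBc.isPreconnected.intermediate_value hb (one_mem B) hcont.continuousOn
    have : (0 : ℝ) ∈ Set.Icc ((b : Matrix (Fin (m + 1)) (Fin (m + 1)) ℝ) i i)
        (((1 : SLR (m + 1)) : Matrix (Fin (m + 1)) (Fin (m + 1)) ℝ) i i) := by
      refine ⟨hcon, ?_⟩
      simp
    obtain ⟨b', hb', h0⟩ := hiv this
    exact hne b' hb' i h0
  intro b hb
  exact ⟨_, fun i => hpos b hb i, hdiag' b hb⟩

/-! ### `Γ ∩ A` is a lattice in `A` -/

lemma lattice_in_posDiag (hm : 1 ≤ m) :
    IsCocompactLattice ((Gam m).subgroupOf (posDiag (m + 1))) := by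
  constructor
  · obtain ⟨V, hV, h1, hVG⟩ := exists_isOpen_inter_Gam hm
    refine discreteTopology_of_isOpen_singleton_one ?_
    have : ({1} : Set ((Gam m).subgroupOf (posDiag (m + 1)))) =
        (fun x : (Gam m).subgroupOf (posDiag (m + 1)) =>
          ((x.1 : posDiag (m + 1)) : SLR (m + 1))) ⁻¹' V := by
      ext g
      simp only [Set.mem_singleton_iff, Set.mem_preimage]
      constructor
      · rintro rfl; exact h1
      · intro h
        exact Subtype.ext (Subtype.ext (hVG _ (Subgroup.mem_subgroupOf.1 g.2) h))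
    rw [this]
    exact hV.preimage (continuous_subtype_val.comp continuous_subtype_val)
  · set ℓ : ℝ := Real.log (Mb m) with hℓ
    have hℓpos : 0 < ℓ := Real.log_pos Mb_gt
    set Φ : (Fin m → ℝ) → posDiag (m + 1) := fun t => ⟨Phi t, Phi_mem t⟩ with hΦ
    have hΦc : Continuous Φ := Phi_continuous.subtype_mk _
    set K : Set (Fin m → ℝ) := Set.pi Set.univ fun _ => Set.Icc (0 : ℝ) ℓ with hK
    have hKc : IsCompact K := isCompact_univ_pi fun _ => isCompact_Icc
    have himg : IsCompact ((fun a : posDiag (m + 1) =>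
        (a : posDiag (m + 1) ⧸ (Gam m).subgroupOf (posDiag (m + 1)))) '' (Φ '' K)) :=
      (hKc.image hΦc).image continuous_quot_mk
    refine ⟨?_⟩
    convert himg
    symm
    rw [Set.eq_univ_iff_forall]
    intro x
    obtain ⟨a, rfl⟩ := QuotientGroup.mk_surjective x
    set t : Fin m → ℝ := Lg a.1 with ht
    set z : Fin m → ℤ := fun j => ⌊t j / ℓ⌋ with hz
    set r : Fin m → ℝ := fun j => t j - z j * ℓ with hr
    have hrK : r ∈ K := by
      intro j _
      have h1 := Int.floor_le (t j / ℓ)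
      have h2 := Int.lt_floor_add_one (t j / ℓ)
      rw [le_div_iff₀ hℓpos] at h1
      rw [div_lt_iff₀ hℓpos] at h2
      simp only [hr, hz]
      constructor
      · linarith
      · linarith
    refine ⟨Φ r, ⟨r, hrK, rfl⟩, ?_⟩
    change ((Φ r : posDiag (m + 1)) : posDiag (m + 1) ⧸ (Gam m).subgroupOf (posDiag (m + 1))) = _
    rw [QuotientGroup.eq, Subgroup.mem_subgroupOf]
    have hsplit : Phi t = Phi r * Phi (fun j => z j * ℓ) := by
      rw [← Phi_add]
      congr 1
      funext j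
      simp [hr]
    have hta : Phi t = a.1 := Phi_Lg a.2
    have hval : (((Φ r)⁻¹ * a : posDiag (m + 1)) : SLR (m + 1)) = Phi (fun j => z j * ℓ) := by
      change (Phi r)⁻¹ * a.1 = _
      rw [← hta, hsplit, inv_mul_cancel_left]
    rw [hval]
    refine LamM_le_Gam ⟨fun i => Fin.lastCases (-∑ j, z j) z i, ?_⟩
    rw [Phi_coe]
    congr 1
    funext i
    have hexp : ∀ k : ℤ, Real.exp (k * ℓ) = (Mb m) ^ k := by
      intro k
      rw [mul_comm, Real.exp_mul, hℓ, Real.exp_log Mb_pos, Real.rpow_intCast]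
    refine Fin.lastCases ?_ (fun i => ?_) i
    · simp only [ex_last, Fin.lastCases_last, ← hexp]
      congr 1
      push_cast
      rw [← Finset.sum_mul]; ring
    · simp only [ex_castSucc, Fin.lastCases_castSucc, ← hexp]

end Pool.Agent.CartanLattice
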