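import Pool.Agent.Lib_helper9.Cartan.Zariski

/-!
# Infinite covolume
-/

namespace Pool.Agent.CartanLattice

open Matrix Topology MeasureTheory Pointwise

/-! ### topological instances -/

instance instSecondCountableMat (n : ℕ) : SecondCountableTopology (Matrix (Fin n) (Fin n) ℝ) :=
  inferInstanceAs (SecondCountableTopology (Fin n → Fin n → ℝ))

instance instLocCompMat (n : ℕ) : LocallyCompactSpace (Matrix (Fin n) (Fin n) ℝ) :=
  inferInstanceAs (LocallyCompactSpace (Fin n → Fin n → ℝ))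

instance instMetrizableMat (n : ℕ) : TopologicalSpace.PseudoMetrizableSpace
    (Matrix (Fin n) (Fin n) ℝ) :=
  inferInstanceAs (TopologicalSpace.PseudoMetrizableSpace (Fin n → Fin n → ℝ))

lemma isClosedEmbedding_SL (n : ℕ) :
    IsClosedEmbedding (fun g : SLR n => (g : Matrix (Fin n) (Fin n) ℝ)) :=
  Matrix.SpecialLinearGroup.isClosedEmbedding_val

instance instSecondCountableSL (n : ℕ) : SecondCountableTopology (SLR n) :=
  (isClosedEmbedding_SL n).isEmbedding.secondCountableTopology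

instance instLocCompSL (n : ℕ) : LocallyCompactSpace (SLR n) :=
  (isClosedEmbedding_SL n).locallyCompactSpace

instance instMetrizableSL (n : ℕ) : TopologicalSpace.PseudoMetrizableSpace (SLR n) :=
  (isClosedEmbedding_SL n).isInducing.pseudoMetrizableSpace

/-! ### abstract criterion -/

section abstract_criterion

variable {H : Type*} [Group H] [TopologicalSpace H] [IsTopologicalGroup H]
  [SecondCountableTopology H]

/-- no finite invariant measure on the quotient -/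
theorem no_finite_measure (Γ : Subgroup H) (V : Set H) (hV : IsOpen V) (hVne : V.Nonempty)
    (s : ℕ → H) (hs : ∀ k l, ∀ v ∈ V, ∀ v' ∈ V, ∀ γ ∈ Γ, s k * v = s l * v' * γ → k = l)
    (ν : @Measure (H ⧸ Γ) (borel _)) (hfin : @IsFiniteMeasure _ (borel _) ν)
    (hinv : ∀ h : H, @Measure.map _ _ (borel _) (borel _) (fun x => h • x) ν = ν) : ν = 0 := by
  let _ : MeasurableSpace (H ⧸ Γ) := borel (H ⧸ Γ)
  have _ : BorelSpace (H ⧸ Γ) := ⟨rfl⟩
  have _ : IsFiniteMeasure ν := hfin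
  set π : H → H ⧸ Γ := fun h => (h : H ⧸ Γ) with hπ
  set W : Set (H ⧸ Γ) := π '' V with hW
  have hWopen : IsOpen W := QuotientGroup.isOpenMap_coe V hV
  have hcont : ∀ h : H, Continuous fun x : H ⧸ Γ => h • x := fun h => continuous_const_smul h
  -- measure of translates
  have hmeas : ∀ h : H, ν (h • W) = ν W := by
    intro h
    have h1 : ν ((fun x : H ⧸ Γ => h • x) ⁻¹' (h • W)) = ν (h • W) := by
      conv_rhs => rw [← hinv h]
      rw [Measure.map_apply (hcont h).measurable (hWopen.smul h).measurableSet]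
    rw [← h1]
    congr 1
    ext x
    simp [Set.smul_mem_smul_set_iff]
  have hdisj : Pairwise (Function.onFun Disjoint fun k => s k • W) := by
    intro k l hkl
    rw [Function.onFun, Set.disjoint_left]
    rintro x hx hx'
    obtain ⟨_, ⟨v, hv, rfl⟩, rfl⟩ := hx
    obtain ⟨_, ⟨v', hv', rfl⟩, h2⟩ := hx'
    have h3 : ((s l * v' : H) : H ⧸ Γ) = ((s k * v : H) : H ⧸ Γ) := h2
    rw [QuotientGroup.eq] at h3
    exact hkl (hs k l v hv v' hv' _ h3 (by group))
  have hsum : ∑' k, ν (s k • W) ≤ ν Set.univ := by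
    rw [← measure_iUnion hdisj fun k => (hWopen.smul (s k)).measurableSet]
    exact measure_mono (Set.subset_univ _)
  have hW0 : ν W = 0 := by
    by_contra hne
    simp only [hmeas] at hsum
    rw [ENNReal.tsum_const_eq_top_of_ne_zero hne] at hsum
    exact (measure_lt_top ν Set.univ).ne (top_le_iff.1 hsum)
  obtain ⟨v0, hv0⟩ := hVne
  rw [← Measure.measure_univ_eq_zero]
  refine measure_null_of_locally_null Set.univ fun x _ => ?_
  obtain ⟨h0, rfl⟩ := QuotientGroup.mk_surjective x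
  refine ⟨(h0 * v0⁻¹) • W, ?_, ?_⟩
  · rw [nhdsWithin_univ]
    refine (hWopen.smul _).mem_nhds ?_
    refine ⟨π v0, ⟨v0, hv0, rfl⟩, ?_⟩
    change ((h0 * v0⁻¹ * v0 : H) : H ⧸ Γ) = _
    rw [inv_mul_cancel_right]
  · rw [hmeas]; exact hW0

omit [SecondCountableTopology H] in
/-- every Borel set meeting all cosets has infinite (bi-invariant) measure -/
theorem haar_top [MeasurableSpace H] [BorelSpace H] (Γ : Subgroup H) [Countable Γ]
    (V : Set H) (hV : IsOpen V) (hVne : V.Nonempty)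
    (s : ℕ → H)
    (hs : ∀ k l, ∀ v ∈ V, ∀ v' ∈ V, ∀ γ ∈ Γ, s k * v = s l * v' * γ → k = l ∧ γ = 1)
    (μ : Measure H) [μ.IsHaarMeasure] [μ.IsMulRightInvariant]
    (F : Set H) (hF : MeasurableSet F) (hcov : ∀ h : H, ∃ γ ∈ Γ, h * γ ∈ F) : μ F = ⊤ := by
  set Y : Set H := ⋃ k, s k • V with hY
  have hYopen : IsOpen Y := isOpen_iUnion fun k => hV.smul (s k)
  have hdisjV : Pairwise (Function.onFun Disjoint fun k => s k • V) := by
    intro k l hkl
    rw [Function.onFun, Set.disjoint_left]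
    rintro x hx hx'
    obtain ⟨v, hv, rfl⟩ := hx
    obtain ⟨v', hv', h2⟩ := hx'
    exact hkl (hs k l v hv v' hv' 1 Γ.one_mem (by rw [mul_one]; exact h2.symm)).1
  have hYtop : μ Y = ⊤ := by
    rw [hY, measure_iUnion hdisjV fun k => (hV.smul (s k)).measurableSet]
    simp only [measure_smul]
    exact ENNReal.tsum_const_eq_top_of_ne_zero (hV.measure_ne_zero μ hVne)
  -- translates of `Y`
  have hYdisj : Pairwise (Function.onFun Disjoint fun γ : Γ =>
      ((fun h : H => h * (γ : H)⁻¹) ⁻¹' Y) ∩ F) := by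
    intro γ γ' hne
    rw [Function.onFun, Set.disjoint_left]
    rintro x ⟨hx, -⟩ ⟨hx', -⟩
    simp only [hY, Set.mem_preimage, Set.mem_iUnion] at hx hx'
    obtain ⟨k, v, hv, hk⟩ := hx
    obtain ⟨l, v', hv', hl⟩ := hx'
    have hk' : s k * v = x * (γ : H)⁻¹ := hk
    have hl' : s l * v' = x * (γ' : H)⁻¹ := hl
    have h3 : s k * v = s l * v' * ((γ' : H) * (γ : H)⁻¹) := by
      rw [hk', hl']; group
    have h4 := (hs k l v hv v' hv' _ (Γ.mul_mem γ'.2 (Γ.inv_mem γ.2)) h3).2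
    exact hne (Subtype.ext (mul_inv_eq_one.1 h4).symm)
  have hmeasY : ∀ γ : Γ, MeasurableSet (((fun h : H => h * (γ : H)⁻¹) ⁻¹' Y) ∩ F) := fun γ =>
    ((hYopen.preimage (continuous_mul_const _)).measurableSet).inter hF
  have hcovY : Y ⊆ ⋃ γ : Γ, (fun h : H => h * (γ : H)) ⁻¹'
      (((fun h : H => h * (γ : H)⁻¹) ⁻¹' Y) ∩ F) := by
    intro y hy
    obtain ⟨γ, hγ, hyF⟩ := hcov y
    refine Set.mem_iUnion.2 ⟨⟨γ, hγ⟩, ?_, hyF⟩
    simpa using hy
  have hle : μ Y ≤ μ F := by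
    calc μ Y ≤ μ (⋃ γ : Γ, (fun h : H => h * (γ : H)) ⁻¹'
          (((fun h : H => h * (γ : H)⁻¹) ⁻¹' Y) ∩ F)) := measure_mono hcovY
      _ ≤ ∑' γ : Γ, μ ((fun h : H => h * (γ : H)) ⁻¹'
          (((fun h : H => h * (γ : H)⁻¹) ⁻¹' Y) ∩ F)) := measure_iUnion_le _
      _ = ∑' γ : Γ, μ (((fun h : H => h * (γ : H)⁻¹) ⁻¹' Y) ∩ F) := by
          congr 1
          funext γ
          exact measure_preimage_mul_right μ (γ : H) _
      _ = μ (⋃ γ : Γ, (((fun h : H => h * (γ : H)⁻¹) ⁻¹' Y) ∩ F)) :=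
          (measure_iUnion hYdisj hmeasY).symm
      _ ≤ μ F := measure_mono (Set.iUnion_subset fun γ => Set.inter_subset_right)
  exact top_le_iff.1 (hYtop ▸ hle)

end abstract_criterion

/-! ### unimodularity of `SL(n, ℝ)` -/

theorem rightInvariant {n : ℕ} (hn : 3 ≤ n) [MeasurableSpace (SLR n)] [BorelSpace (SLR n)]
    (μ : Measure (SLR n)) [μ.IsHaarMeasure] : μ.IsMulRightInvariant := by
  have hker : (Measure.modularCharacter (G := SLR n)).ker = ⊤ := by
    rw [eq_top_iff, ← Gen.SL_commutator_eq_top (ι := Fin n) (F := ℝ) (by simpa using hn),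
      commutator_eq_closure, Subgroup.closure_le]
    rintro _ ⟨a, b, rfl⟩
    rw [SetLike.mem_coe, MonoidHom.mem_ker, commutatorElement_def]
    set φ := Measure.modularCharacter (G := SLR n)
    have h1 : φ a * φ a⁻¹ = 1 := by rw [← map_mul, mul_inv_cancel, map_one]
    have h2 : φ b * φ b⁻¹ = 1 := by rw [← map_mul, mul_inv_cancel, map_one]
    calc φ (a * b * a⁻¹ * b⁻¹) = (φ a * φ a⁻¹) * (φ b * φ b⁻¹) := by
          simp only [map_mul]; ring
      _ = 1 := by rw [h1, h2, one_mul]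
  constructor
  intro g
  have hg : Measure.modularCharacter g = 1 := by
    have : g ∈ (Measure.modularCharacter (G := SLR n)).ker := hker ▸ Subgroup.mem_top g
    exact this
  have hg' : Measure.modularCharacterFun g = 1 := hg
  rw [Measure.map_right_mul_eq_modularCharacterFun_smul μ g, hg', one_smul]

/-! ### the concrete wandering set -/

variable {m : ℕ}

/-- first basis vector -/
def e0 (m : ℕ) : Fin (m + 1) → ℝ := Pi.single 0 1

/-- group elements `g` with `g⁻¹ e₀ ∈ O` -/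
def UU (m : ℕ) : Set (SLR (m + 1)) :=
  {g | ((g⁻¹ : SLR (m + 1)) : Matrix (Fin (m + 1)) (Fin (m + 1)) ℝ) *ᵥ (e0 m) ∈ Oset m}

/-- the open set `V` -/
def VV (m : ℕ) : Set (SLR (m + 1)) :=
  UU m ∩ {g | 1 < (g : Matrix (Fin (m + 1)) (Fin (m + 1)) ℝ) 0 0 ∧
    (g : Matrix (Fin (m + 1)) (Fin (m + 1)) ℝ) 0 0 < 2}

lemma isOpen_UU : IsOpen (UU m) :=
  isOpen_Oset.preimage ((continuous_mulVec_SL (e0 m)).comp continuous_inv)

lemma isOpen_VV : IsOpen (VV m) := by
  refine isOpen_UU.inter ?_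
  have hc : Continuous fun g : SLR (m + 1) =>
      (g : Matrix (Fin (m + 1)) (Fin (m + 1)) ℝ) 0 0 :=
    continuous_subtype_val.matrix_elem 0 0
  exact (isOpen_lt continuous_const hc).inter (isOpen_lt hc continuous_const)

lemma zero_ne_last (hm : 1 ≤ m) : (0 : Fin (m + 1)) ≠ Fin.last m := by
  intro h
  have := congrArg Fin.val h
  simp at this
  omega

lemma dg_inv {i j : Fin (m + 1)} (hij : i ≠ j) {t : ℝ} (ht : t ≠ 0) :
    (dg hij t)⁻¹ = dg hij t⁻¹ := by
  rw [inv_eq_iff_mul_eq_one]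
  apply Subtype.ext
  rw [Matrix.SpecialLinearGroup.coe_mul, dg_coe hij ht, dg_coe hij (inv_ne_zero ht),
    diagonal_mul_diagonal]
  have : (fun k => (if k = i then t else if k = j then t⁻¹ else 1) *
      (if k = i then t⁻¹ else if k = j then t⁻¹⁻¹ else 1)) = fun _ : Fin (m + 1) => (1 : ℝ) := by
    funext k
    split_ifs <;> simp [ht]
  rw [this, diagonal_one]
  rfl

lemma dg_mulVec_e0 (hm : 1 ≤ m) {t : ℝ} (ht : t ≠ 0) :
    (dg (zero_ne_last hm) t : Matrix (Fin (m + 1)) (Fin (m + 1)) ℝ) *ᵥ (e0 m) = t • e0 m := by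
  rw [dg_coe _ ht]
  ext k
  rw [diag_mulVec_apply]
  by_cases hk : k = 0
  · subst hk; simp [e0]
  · simp [e0, hk]

lemma dg_mul_mem_UU (hm : 1 ≤ m) {t : ℝ} (ht : t ≠ 0) {g : SLR (m + 1)} (hg : g ∈ UU m) :
    dg (zero_ne_last hm) t * g ∈ UU m := by
  change (((dg (zero_ne_last hm) t * g)⁻¹ : SLR (m + 1)) :
    Matrix (Fin (m + 1)) (Fin (m + 1)) ℝ) *ᵥ (e0 m) ∈ Oset m
  rw [_root_.mul_inv_rev, Matrix.SpecialLinearGroup.coe_mul, ← mulVec_mulVec, dg_inv _ ht,
    dg_mulVec_e0 hm (inv_ne_zero ht), mulVec_smul]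
  exact smul_mem_Oset (inv_ne_zero ht) hg

lemma dg_mul_entry (hm : 1 ≤ m) {t : ℝ} (ht : t ≠ 0) (g : SLR (m + 1)) :
    ((dg (zero_ne_last hm) t * g : SLR (m + 1)) : Matrix (Fin (m + 1)) (Fin (m + 1)) ℝ) 0 0 =
      t * (g : Matrix (Fin (m + 1)) (Fin (m + 1)) ℝ) 0 0 := by
  rw [Matrix.SpecialLinearGroup.coe_mul, dg_coe _ ht, diagonal_mul]
  simp

lemma UU_separated (hm : 1 ≤ m) {g h γ : SLR (m + 1)} (hg : g ∈ UU m) (hh : h ∈ UU m)
    (hγ : γ ∈ Gam m) (he : g = h * γ) : γ = 1 := by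
  by_contra hne
  have h1 : ((g⁻¹ : SLR (m + 1)) : Matrix (Fin (m + 1)) (Fin (m + 1)) ℝ) *ᵥ (e0 m) ∈ Oset m := hg
  rw [he, _root_.mul_inv_rev, Matrix.SpecialLinearGroup.coe_mul, ← mulVec_mulVec] at h1
  exact wandering hm (inv_mem hγ) (inv_ne_one.2 hne) hh h1

lemma VV_nonempty (hm : 1 ≤ m) : (VV m).Nonempty := by
  -- `h = 1 + (x0 - e0) ⊗ e0` sends `e0` to `x0`
  have hx00 : x0 m 0 = 1 := by
    rw [x0, al_ne_last (zero_ne_last hm), inv_one]
  have hdot : e0 m ⬝ᵥ (x0 m - e0 m) = 0 := by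
    rw [e0, single_dotProduct, Pi.sub_apply, hx00]
    simp
  set h : SLR (m + 1) := tv (x0 m - e0 m) (e0 m) hdot with hh
  have hhe : (h : Matrix (Fin (m + 1)) (Fin (m + 1)) ℝ) *ᵥ (e0 m) = x0 m := by
    rw [hh, tv_mulVec]
    have : e0 m ⬝ᵥ e0 m = 1 := by simp [e0]
    rw [this, one_smul]; abel
  have hdot' : e0 m ⬝ᵥ (-(x0 m - e0 m)) = 0 := by rw [dotProduct_neg, hdot, neg_zero]
  have hinv : h⁻¹ = tv (-(x0 m - e0 m)) (e0 m) hdot' := by
    rw [inv_eq_iff_mul_eq_one]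
    apply Subtype.ext
    rw [Matrix.SpecialLinearGroup.coe_mul, hh, tv_coe, tv_coe, mul_add, add_mul, add_mul, one_mul,
      one_mul, mul_one, vecMulVec_mul_vecMulVec, hdot', zero_smul, neg_vecMulVec]
    simp
  have hentry : ((h⁻¹ : SLR (m + 1)) : Matrix (Fin (m + 1)) (Fin (m + 1)) ℝ) 0 0 = 1 := by
    rw [hinv, tv_coe]
    simp [vecMulVec_apply, hx00, e0]
  have hUU : h⁻¹ ∈ UU m := by
    change (((h⁻¹)⁻¹ : SLR (m + 1)) : Matrix (Fin (m + 1)) (Fin (m + 1)) ℝ) *ᵥ (e0 m) ∈ Oset m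
    rw [inv_inv, hhe]
    exact x0_mem hm
  refine ⟨dg (zero_ne_last hm) (3 / 2) * h⁻¹, dg_mul_mem_UU hm (by norm_num) hUU, ?_⟩
  change 1 < _ ∧ _ < _
  rw [dg_mul_entry hm (by norm_num), hentry]
  norm_num

/-- the diverging sequence -/
noncomputable def sq (hm : 1 ≤ m) (k : ℕ) : SLR (m + 1) := dg (zero_ne_last hm) (2 ^ k)

lemma sq_separated (hm : 1 ≤ m) (k l : ℕ) (v : SLR (m + 1)) (hv : v ∈ VV m) (v' : SLR (m + 1))
    (hv' : v' ∈ VV m) (γ : SLR (m + 1)) (hγ : γ ∈ Gam m) (h : sq hm k * v = sq hm l * v' * γ) :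
    k = l ∧ γ = 1 := by
  have h2k : (2 : ℝ) ^ k ≠ 0 := by positivity
  have h2l : (2 : ℝ) ^ l ≠ 0 := by positivity
  have hγ1 : γ = 1 := UU_separated hm (dg_mul_mem_UU hm h2k hv.1) (dg_mul_mem_UU hm h2l hv'.1) hγ h
  refine ⟨?_, hγ1⟩
  rw [hγ1, mul_one] at h
  have he := congrArg (fun g : SLR (m + 1) =>
    (g : Matrix (Fin (m + 1)) (Fin (m + 1)) ℝ) 0 0) h
  simp only [sq] at he
  rw [dg_mul_entry hm h2k, dg_mul_entry hm h2l] at he
  obtain ⟨-, a1, a2⟩ := hv
  obtain ⟨-, b1, b2⟩ := hv'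
  have hkpos : (0 : ℝ) < 2 ^ k := by positivity
  have hlpos : (0 : ℝ) < 2 ^ l := by positivity
  have c1 : (2 : ℝ) ^ k < 2 ^ (l + 1) := by
    rw [pow_succ]
    nlinarith
  have c2 : (2 : ℝ) ^ l < 2 ^ (k + 1) := by
    rw [pow_succ]
    nlinarith
  have d1 : k < l + 1 := (pow_lt_pow_iff_right₀ (by norm_num : (1 : ℝ) < 2)).1 c1
  have d2 : l < k + 1 := (pow_lt_pow_iff_right₀ (by norm_num : (1 : ℝ) < 2)).1 c2
  omega

instance countable_of_discrete_SL {n : ℕ} (Γ : Subgroup (SLR n)) [DiscreteTopology Γ] :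
    Countable Γ := TopologicalSpace.separableSpace_iff_countable.1 inferInstance

theorem Gam_infiniteCovolume (hm : 2 ≤ m) : HasInfiniteCovolume (Gam m) := by
  have hm1 : 1 ≤ m := by omega
  have := discrete_Gam hm1
  refine ⟨?_, ?_⟩
  · intro μ hμ F hF hcov
    let _ : MeasurableSpace (SLR (m + 1)) := borel _
    have _ : BorelSpace (SLR (m + 1)) := ⟨rfl⟩
    have _ : μ.IsHaarMeasure := hμ
    have _ : μ.IsMulRightInvariant := rightInvariant (by omega) μ
    exact haar_top (Gam m) (VV m) isOpen_VV (VV_nonempty hm1) (sq hm1) (sq_separated hm1) μ F hF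
      hcov
  · intro ν hν hinv
    exact no_finite_measure (Gam m) (VV m) isOpen_VV (VV_nonempty hm1) (sq hm1)
      (fun k l v hv v' hv' γ hγ h => (sq_separated hm1 k l v hv v' hv' γ hγ h).1) ν hν hinv

end Pool.Agent.CartanLattice
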