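import Mathlib

/-!
# Definitions for MP_450614_al

`SL(n, ℝ)`, its adjoint representation, Zariski density through the adjoint representation,
Cartan subgroups, lattices, infinite covolume.
-/

namespace Pool.Agent.CartanLattice

open Matrix MeasureTheory Topology

attribute [local instance 100] LieRing.ofAssociativeRing

/-- `SL(n, ℝ)`, with the topology induced from the space of `n × n` matrices. -/
abbrev SLR (n : ℕ) := Matrix.SpecialLinearGroup (Fin n) ℝ

/-- The Lie algebra `𝔰𝔩(n, ℝ)` of traceless matrices. -/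
abbrev slR (n : ℕ) : LieSubalgebra ℝ (Matrix (Fin n) (Fin n) ℝ) :=
  LieAlgebra.SpecialLinear.sl (Fin n) ℝ

/-- The adjoint representation of `SL(n, ℝ)`: `Ad g X = g X g⁻¹` for `X ∈ 𝔰𝔩(n, ℝ)`. -/
noncomputable def Ad {n : ℕ} (g : SLR n) : Module.End ℝ (slR n) where
  toFun X := ⟨(g : Matrix (Fin n) (Fin n) ℝ) * X.1 * ((g⁻¹ : SLR n) : Matrix (Fin n) (Fin n) ℝ), by
    have hX : Matrix.trace X.1 = 0 := X.2
    change Matrix.trace ((g : Matrix (Fin n) (Fin n) ℝ) * X.1 *
      ((g⁻¹ : SLR n) : Matrix (Fin n) (Fin n) ℝ)) = 0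
    rw [Matrix.trace_mul_comm, ← Matrix.mul_assoc, ← Matrix.SpecialLinearGroup.coe_mul]
    simp [hX]⟩
  map_add' X Y := by
    apply Subtype.ext
    simp [Matrix.mul_add, Matrix.add_mul]
  map_smul' c X := by
    apply Subtype.ext
    simp

/-- The algebra of (real) polynomial functions on a real vector space `W`: the subalgebra of
`W → ℝ` generated by the linear functionals. -/
def polyFun (W : Type*) [AddCommGroup W] [Module ℝ W] : Subalgebra ℝ (W → ℝ) :=
  Algebra.adjoin ℝ (Set.range fun φ : Module.Dual ℝ W => (φ : W → ℝ))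

/-- `Γ` is Zariski dense: `Ad(Γ)` is Zariski dense in `Ad(SL(n, ℝ))`, i.e. every real polynomial
function on `End(𝔰𝔩(n, ℝ))` that vanishes on `Ad(Γ)` vanishes on `Ad(SL(n, ℝ))`. -/
def IsZariskiDense {n : ℕ} (Γ : Subgroup (SLR n)) : Prop :=
  ∀ f ∈ polyFun (Module.End ℝ (slR n)), (∀ γ ∈ Γ, f (Ad γ) = 0) → ∀ g : SLR n, f (Ad g) = 0

/-- A subgroup `B` of `SL(n, ℝ)` is diagonalizable over `ℝ`: after a real change of basis all its
elements are diagonal matrices. -/
def IsDiagonalizableOverR {n : ℕ} (B : Subgroup (SLR n)) : Prop :=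
  ∃ P : GL (Fin n) ℝ, ∀ b ∈ B,
    ((P : Matrix (Fin n) (Fin n) ℝ) * (b : Matrix (Fin n) (Fin n) ℝ) *
      ((P⁻¹ : GL (Fin n) ℝ) : Matrix (Fin n) (Fin n) ℝ)).IsDiag

/-- A Cartan subgroup: a maximal connected subgroup that is diagonalizable over `ℝ`. -/
def IsCartan {n : ℕ} (A : Subgroup (SLR n)) : Prop :=
  Maximal (fun B : Subgroup (SLR n) => IsConnected (B : Set (SLR n)) ∧ IsDiagonalizableOverR B) A

/-- `Λ` is discrete and cocompact in `H` (this is the definition of a lattice in a Cartan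
subgroup `H = A ≅ ℝ^r`). -/
def IsCocompactLattice {H : Type*} [Group H] [TopologicalSpace H] (Λ : Subgroup H) : Prop :=
  DiscreteTopology Λ ∧ CompactSpace (H ⧸ Λ)

/-- Infinite covolume of `Γ` in `H`, in both usual senses:
* every Borel set `F ⊆ H` that meets every coset `h Γ` has infinite Haar measure;
* there is no nonzero finite Borel measure on `H ⧸ Γ` invariant under left translations. -/
def HasInfiniteCovolume {H : Type*} [Group H] [TopologicalSpace H] (Γ : Subgroup H) : Prop :=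
  letI : MeasurableSpace H := borel H
  haveI : BorelSpace H := ⟨rfl⟩
  letI : MeasurableSpace (H ⧸ Γ) := borel (H ⧸ Γ)
  (∀ (μ : Measure H), μ.IsHaarMeasure → ∀ F : Set H, MeasurableSet F →
    (∀ h : H, ∃ γ ∈ Γ, h * γ ∈ F) → μ F = ⊤) ∧
  (∀ ν : Measure (H ⧸ Γ), IsFiniteMeasure ν →
    (∀ h : H, ν.map (fun x => h • x) = ν) → ν = 0)

end Pool.Agent.CartanLattice
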