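import Pool.Agent.Lib_helper9.Cartan.Ping

/-!
# The group `Γ = ⟨Λ, U τ⟩` : normal forms, wandering set, discreteness
-/

namespace Pool.Agent.CartanLattice

open Matrix Topology

variable {m : ℕ}

/-- the diagonal lattice `Λ` of `SL(m+1, ℝ)` -/
noncomputable def LamM (m : ℕ) : Subgroup (SLR (m + 1)) := Lam (m + 1) (Mb m) Mb_ne

/-- the counterexample group `Γ = ⟨Λ, U τ⟩` -/
noncomputable def Gam (m : ℕ) : Subgroup (SLR (m + 1)) :=
  Subgroup.closure ((LamM m : Set (SLR (m + 1))) ∪ {U m (tau m)})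

lemma LamM_le_Gam : LamM m ≤ Gam m := fun _ hx => Subgroup.subset_closure (Or.inl hx)

lemma U_mem_Gam : U m (tau m) ∈ Gam m := Subgroup.subset_closure (Or.inr rfl)

lemma U_zpow (k : ℤ) : (U m (tau m)) ^ k = U m (k * tau m) := by
  have hnat : ∀ j : ℕ, (U m (tau m)) ^ j = U m (j * tau m) := by
    intro j
    induction j with
    | zero => simp [U_zero]
    | succ j ih => rw [pow_succ, ih, U_mul]; congr 1; push_cast; ring
  cases k with
  | ofNat j => simpa using hnat j
  | negSucc j =>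
    rw [zpow_negSucc, hnat, U_inv]
    congr 1
    push_cast; ring

lemma Uz_mem_Gam (k : ℤ) : U m (k * tau m) ∈ Gam m := by
  rw [← U_zpow]; exact Subgroup.zpow_mem _ U_mem_Gam k

/-- normal forms starting with a power of the unipotent -/
inductive E (m : ℕ) : SLR (m + 1) → Prop
  | base (k : ℤ) (hk : k ≠ 0) (a : SLR (m + 1)) (ha : a ∈ LamM m) : E m (U m (k * tau m) * a)
  | step (k : ℤ) (hk : k ≠ 0) (a : SLR (m + 1)) (ha : a ∈ LamM m) (ha1 : a ≠ 1)
      (w : SLR (m + 1)) (hw : E m w) : E m (U m (k * tau m) * a * w)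

/-- general normal forms -/
def NF (m : ℕ) (g : SLR (m + 1)) : Prop :=
  g ∈ LamM m ∨ ∃ a ∈ LamM m, ∃ w, E m w ∧ g = a * w

lemma NF_Lam_mul {a g : SLR (m + 1)} (ha : a ∈ LamM m) (hg : NF m g) : NF m (a * g) := by
  rcases hg with hg | ⟨b, hb, w, hw, rfl⟩
  · exact Or.inl (mul_mem ha hg)
  · exact Or.inr ⟨a * b, mul_mem ha hb, w, hw, by rw [mul_assoc]⟩

lemma NF_U_mul {g : SLR (m + 1)} (l : ℤ) (hg : NF m g) :
    NF m (U m (l * tau m) * g) := by
  by_cases hl : l = 0
  · subst hl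
    simpa [U_zero] using hg
  rcases hg with hg | ⟨b, hb, w, hw, rfl⟩
  · exact Or.inr ⟨1, one_mem _, _, E.base l hl g hg, by rw [one_mul]⟩
  · by_cases hb1 : b = 1
    · subst hb1
      rw [one_mul]
      cases hw with
      | base k hk a ha =>
        rw [← mul_assoc, U_mul, ← add_mul]
        by_cases hkl : l + k = 0
        · have : ((l : ℝ) + k) * tau m = 0 := by
            have : ((l : ℝ) + k) = 0 := by exact_mod_cast hkl
            rw [this, zero_mul]
          rw [this, U_zero, one_mul]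
          exact Or.inl ha
        · have e : ((l : ℝ) + k) = ((l + k : ℤ) : ℝ) := by push_cast; ring
          rw [e]
          exact Or.inr ⟨1, one_mem _, _, E.base (l + k) hkl a ha, by rw [one_mul]⟩
      | step k hk a ha ha1 w' hw' =>
        rw [← mul_assoc, ← mul_assoc, U_mul, ← add_mul]
        by_cases hkl : l + k = 0
        · have : ((l : ℝ) + k) * tau m = 0 := by
            have : ((l : ℝ) + k) = 0 := by exact_mod_cast hkl
            rw [this, zero_mul]
          rw [this, U_zero, one_mul]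
          exact Or.inr ⟨a, ha, w', hw', rfl⟩
        · have e : ((l : ℝ) + k) = ((l + k : ℤ) : ℝ) := by push_cast; ring
          rw [e]
          exact Or.inr ⟨1, one_mem _, _, E.step (l + k) hkl a ha ha1 w' hw', by rw [one_mul]⟩
    · rw [← mul_assoc]
      exact Or.inr ⟨1, one_mem _, _, E.step l hl b hb hb1 w hw, by rw [one_mul]⟩

lemma NF_of_mem {g : SLR (m + 1)} (hg : g ∈ Gam m) : NF m g := by
  unfold Gam at hg
  induction hg using Subgroup.closure_induction_left with
  | one => exact Or.inl (one_mem _)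
  | mul_left x hx y hy ih =>
    rcases hx with hx | hx
    · exact NF_Lam_mul hx ih
    · rw [Set.mem_singleton_iff.1 hx]
      simpa using NF_U_mul 1 ih
  | inv_mul_cancel x hx y hy ih =>
    rcases hx with hx | hx
    · exact NF_Lam_mul (inv_mem hx) ih
    · rw [Set.mem_singleton_iff.1 hx, U_inv]
      simpa using NF_U_mul (-1) ih

lemma E_maps (hm : 1 ≤ m) {w : SLR (m + 1)} (hw : E m w) {x : Fin (m + 1) → ℝ}
    (hx : x ∈ Oset m) : (w : Matrix (Fin (m + 1)) (Fin (m + 1)) ℝ) *ᵥ x ∈ S2 m := by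
  induction hw with
  | base k hk a ha =>
    rw [Matrix.SpecialLinearGroup.coe_mul, ← mulVec_mulVec]
    exact U_maps (Lam_maps_O hm ha hx) hk
  | step k hk a ha ha1 w hw ih =>
    rw [Matrix.SpecialLinearGroup.coe_mul, Matrix.SpecialLinearGroup.coe_mul, ← mulVec_mulVec,
      ← mulVec_mulVec]
    exact U_maps (Lam_maps_S2 ha ha1 ih) hk

/-- `O` is wandering for `Γ` -/
lemma wandering (hm : 1 ≤ m) {g : SLR (m + 1)} (hg : g ∈ Gam m) (hg1 : g ≠ 1)
    {x : Fin (m + 1) → ℝ} (hx : x ∈ Oset m) :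
    (g : Matrix (Fin (m + 1)) (Fin (m + 1)) ℝ) *ᵥ x ∉ Oset m := by
  rcases NF_of_mem hg with h | ⟨a, ha, w, hw, rfl⟩
  · exact Lam_O_disjoint h hg1 hx
  · rw [Matrix.SpecialLinearGroup.coe_mul, ← mulVec_mulVec]
    exact Lam_S2_O_disjoint hm ha (E_maps hm hw hx)

lemma isOpen_Oset : IsOpen (Oset m) := by
  have : Oset m = ⋃ c ∈ {c : ℝ | c ≠ 0}, ⋂ i, {x : Fin (m + 1) → ℝ |
      |al m i * x i - c| < |c| / 2} := by
    ext x
    simp only [Oset, Set.mem_ofPred_eq, Set.mem_iUnion, Set.mem_iInter, exists_prop]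
  rw [this]
  refine isOpen_biUnion fun c _ => isOpen_iInter_of_finite fun i => ?_
  exact isOpen_lt (by fun_prop) continuous_const

/-- base point of `O` -/
noncomputable def x0 (m : ℕ) : Fin (m + 1) → ℝ := fun i => (al m i)⁻¹

lemma x0_mem (hm : 1 ≤ m) : x0 m ∈ Oset m := by
  refine ⟨1, one_ne_zero, fun i => ?_⟩
  rw [x0, mul_inv_cancel₀ (al_ne_zero hm i)]
  simp

lemma smul_mem_Oset {t : ℝ} (ht : t ≠ 0) {x : Fin (m + 1) → ℝ} (hx : x ∈ Oset m) :
    t • x ∈ Oset m := by
  obtain ⟨c, hc, h⟩ := hx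
  refine ⟨t * c, mul_ne_zero ht hc, fun i => ?_⟩
  have h1 : al m i * (t • x) i - t * c = t * (al m i * x i - c) := by
    simp only [Pi.smul_apply, smul_eq_mul]; ring
  rw [h1, abs_mul, abs_mul]
  have := mul_lt_mul_of_pos_left (h i) (abs_pos.2 ht)
  linarith

lemma continuous_mulVec_SL {n : ℕ} (x : Fin n → ℝ) :
    Continuous fun g : SLR n => (g : Matrix (Fin n) (Fin n) ℝ) *ᵥ x := by
  have : Continuous fun g : SLR n => (g : Matrix (Fin n) (Fin n) ℝ) := continuous_subtype_val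
  exact this.matrix_mulVec continuous_const

/-- an open neighbourhood of `1` in `SL` meeting `Γ` only in `1` -/
lemma exists_isOpen_inter_Gam (hm : 1 ≤ m) :
    ∃ V : Set (SLR (m + 1)), IsOpen V ∧ 1 ∈ V ∧ ∀ g ∈ Gam m, g ∈ V → g = 1 := by
  refine ⟨(fun g : SLR (m + 1) => (g : Matrix (Fin (m + 1)) (Fin (m + 1)) ℝ) *ᵥ (x0 m)) ⁻¹'
    (Oset m), isOpen_Oset.preimage (continuous_mulVec_SL _), ?_, ?_⟩
  · simpa using x0_mem hm
  · intro g hg hgV
    by_contra h1
    exact wandering hm hg h1 (x0_mem hm) hgV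

lemma discrete_Gam (hm : 1 ≤ m) : DiscreteTopology (Gam m) := by
  obtain ⟨V, hV, h1, hVG⟩ := exists_isOpen_inter_Gam hm
  refine discreteTopology_of_isOpen_singleton_one ?_
  have : ({1} : Set (Gam m)) = Subtype.val ⁻¹' V := by
    ext g
    simp only [Set.mem_singleton_iff, Set.mem_preimage]
    constructor
    · rintro rfl; exact h1
    · intro h
      exact Subtype.ext (hVG g.1 g.2 h)
  rw [this]
  exact hV.preimage continuous_subtype_val

end Pool.Agent.CartanLattice
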