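import Pool.Agent.Lib_helper9.Cartan.Defs

/-!
# Ping-pong for a diagonal lattice and a transvection in `SL(m+1, ℝ)`
-/

namespace Pool.Agent.CartanLattice

open Matrix

variable {m : ℕ}

/-! ### the functional `α = (1, …, 1, -m)` -/

/-- the functional `(1, …, 1, -m)` -/
def al (m : ℕ) : Fin (m + 1) → ℝ := fun i => if i = Fin.last m then -(m : ℝ) else 1

lemma al_last : al m (Fin.last m) = -(m : ℝ) := by simp [al]

lemma al_ne_last {i : Fin (m + 1)} (h : i ≠ Fin.last m) : al m i = 1 := by simp [al, h]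

lemma al_castSucc (i : Fin m) : al m i.castSucc = 1 := al_ne_last (Fin.castSucc_lt_last i).ne

lemma al_sum : ∑ i, al m i = 0 := by
  rw [Fin.sum_univ_castSucc]
  simp [al_castSucc, al_last]

lemma al_abs_sum : ∑ i, |al m i| = 2 * m := by
  rw [Fin.sum_univ_castSucc]
  simp only [al_castSucc, al_last, abs_one, abs_neg, Nat.abs_cast]
  simp
  ring

lemma al_ne_zero (hm : 1 ≤ m) (i : Fin (m + 1)) : al m i ≠ 0 := by
  unfold al
  split_ifs
  · have : (1 : ℝ) ≤ m := by exact_mod_cast hm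
    intro h; linarith
  · norm_num

lemma al_one_le_abs (hm : 1 ≤ m) (i : Fin (m + 1)) : 1 ≤ |al m i| := by
  unfold al
  split_ifs
  · have : (1 : ℝ) ≤ m := by exact_mod_cast hm
    rw [abs_neg, Nat.abs_cast]; exact this
  · norm_num

lemma al_subset_sum (I : Finset (Fin (m + 1))) (h1 : I.Nonempty) (h2 : I ≠ Finset.univ) :
    1 ≤ |∑ i ∈ I, al m i| := by
  classical
  by_cases hl : Fin.last m ∈ I
  · have hsum : ∑ i ∈ I, al m i = (I.card : ℝ) - 1 - m := by
      rw [← Finset.add_sum_erase I _ hl, al_last]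
      have : ∑ i ∈ I.erase (Fin.last m), al m i = ∑ i ∈ I.erase (Fin.last m), (1 : ℝ) :=
        Finset.sum_congr rfl fun i hi => al_ne_last (Finset.ne_of_mem_erase hi)
      rw [this]
      simp only [Finset.sum_const, nsmul_eq_mul, mul_one]
      rw [Finset.card_erase_of_mem hl, Nat.cast_sub (Finset.card_pos.2 h1)]
      push_cast; ring
    have hcard : I.card < m + 1 := by
      have := Finset.card_lt_card (Finset.ssubset_univ_iff.2 h2)
      simpa using this
    have hcard' : (I.card : ℝ) ≤ m := by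
      have : I.card ≤ m := by omega
      exact_mod_cast this
    rw [hsum, abs_of_nonpos (by linarith)]
    linarith
  · have hsum : ∑ i ∈ I, al m i = (I.card : ℝ) := by
      have : ∑ i ∈ I, al m i = ∑ i ∈ I, (1 : ℝ) :=
        Finset.sum_congr rfl fun i hi => al_ne_last (fun h => hl (h ▸ hi))
      rw [this]; simp
    rw [hsum, Nat.abs_cast]
    exact_mod_cast Finset.card_pos.2 h1

/-! ### rank-one unipotents -/

/-- The element `1 + v ⊗ w` of `SL`, for `w(v) = 0`. -/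
def tv {n : ℕ} (v w : Fin n → ℝ) (h : w ⬝ᵥ v = 0) : SLR n :=
  ⟨1 + vecMulVec v w, by
    rw [vecMulVec_eq Unit, det_one_add_replicateCol_mul_replicateRow, h, add_zero]⟩

lemma tv_coe {n : ℕ} (v w : Fin n → ℝ) (h : w ⬝ᵥ v = 0) :
    (tv v w h : Matrix (Fin n) (Fin n) ℝ) = 1 + vecMulVec v w := rfl

lemma tv_mulVec {n : ℕ} (v w : Fin n → ℝ) (h : w ⬝ᵥ v = 0) (x : Fin n → ℝ) :
    (tv v w h : Matrix (Fin n) (Fin n) ℝ) *ᵥ x = x + (w ⬝ᵥ x) • v := by
  rw [tv_coe, add_mulVec, one_mulVec, vecMulVec_mulVec]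
  simp

lemma al_dot_const (t : ℝ) : al m ⬝ᵥ (fun _ => t) = 0 := by
  simp only [dotProduct, ← Finset.sum_mul, al_sum, zero_mul]

/-- The one-parameter unipotent group `U t = 1 + t (1,…,1) ⊗ α`. -/
def U (m : ℕ) (t : ℝ) : SLR (m + 1) := tv (fun _ => t) (al m) (al_dot_const t)

lemma U_mulVec (t : ℝ) (x : Fin (m + 1) → ℝ) (i : Fin (m + 1)) :
    ((U m t : Matrix (Fin (m + 1)) (Fin (m + 1)) ℝ) *ᵥ x) i = x i + t * (al m ⬝ᵥ x) := by
  rw [U, tv_mulVec]
  simp [mul_comm]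

lemma U_mul (s t : ℝ) : U m s * U m t = U m (s + t) := by
  apply Subtype.ext
  rw [Matrix.SpecialLinearGroup.coe_mul]
  simp only [U, tv_coe]
  rw [mul_add, add_mul, add_mul, one_mul, one_mul, mul_one, vecMulVec_mul_vecMulVec]
  rw [al_dot_const t]
  ext i j
  simp [vecMulVec_apply, Matrix.one_apply]
  ring

lemma U_zero : U m 0 = 1 := by
  apply Subtype.ext
  ext i j
  simp [U, tv_coe, vecMulVec_apply]

lemma U_inv (t : ℝ) : (U m t)⁻¹ = U m (-t) := by
  rw [inv_eq_iff_mul_eq_one, U_mul, add_neg_cancel, U_zero]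

/-! ### the diagonal lattice -/

/-- The group of diagonal matrices in `SL` whose entries are integer powers of `M`. -/
def Lam (n : ℕ) (M : ℝ) (hM : M ≠ 0) : Subgroup (SLR n) where
  carrier := {g | ∃ k : Fin n → ℤ, (g : Matrix (Fin n) (Fin n) ℝ) = diagonal fun i => M ^ k i}
  one_mem' := ⟨0, by simp⟩
  mul_mem' := by
    rintro a b ⟨k, hk⟩ ⟨l, hl⟩
    refine ⟨k + l, ?_⟩
    rw [Matrix.SpecialLinearGroup.coe_mul, hk, hl, diagonal_mul_diagonal]
    congr 1
    funext i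
    rw [Pi.add_apply, zpow_add₀ hM]
  inv_mem' := by
    rintro a ⟨k, hk⟩
    refine ⟨-k, ?_⟩
    have h1 : (a : Matrix (Fin n) (Fin n) ℝ) * diagonal (fun i => M ^ (-k) i) = 1 := by
      rw [hk, diagonal_mul_diagonal]
      have : (fun i => M ^ k i * M ^ (-k) i) = fun _ => (1 : ℝ) := by
        funext i
        rw [Pi.neg_apply, ← zpow_add₀ hM, add_neg_cancel, zpow_zero]
      rw [this, diagonal_one]
    calc ((a⁻¹ : SLR n) : Matrix (Fin n) (Fin n) ℝ)
        = ((a⁻¹ : SLR n) : Matrix (Fin n) (Fin n) ℝ) *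
          ((a : Matrix (Fin n) (Fin n) ℝ) * diagonal (fun i => M ^ (-k) i)) := by
          rw [h1, mul_one]
      _ = diagonal (fun i => M ^ (-k) i) := by
          rw [← mul_assoc, ← Matrix.SpecialLinearGroup.coe_mul, inv_mul_cancel]
          simp

lemma mem_Lam {n : ℕ} {M : ℝ} {hM : M ≠ 0} {g : SLR n} :
    g ∈ Lam n M hM ↔ ∃ k : Fin n → ℤ,
      (g : Matrix (Fin n) (Fin n) ℝ) = diagonal fun i => M ^ k i := Iff.rfl

/-- if `g = diag(M^k)` is not `1` then `k` is not constant -/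
lemma Lam_nonconst {n : ℕ} (hn : 0 < n) {M : ℝ} (hM : 1 < M) {g : SLR n} {k : Fin n → ℤ}
    (hk : (g : Matrix (Fin n) (Fin n) ℝ) = diagonal fun i => M ^ k i) (hg : g ≠ 1) :
    ∃ i j, k i < k j := by
  by_contra hcon
  push Not at hcon
  let i0 : Fin n := ⟨0, hn⟩
  have hconst : ∀ i, k i = k i0 := fun i => le_antisymm (hcon i0 i) (hcon i i0)
  have hdet : (g : Matrix (Fin n) (Fin n) ℝ).det = 1 := g.2
  rw [hk, det_diagonal] at hdet
  simp only [hconst] at hdet
  rw [Finset.prod_const, Finset.card_univ, Fintype.card_fin] at hdet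
  have h0 : M ^ k i0 = 1 := by
    have hpos : (0 : ℝ) ≤ M ^ k i0 := (zpow_pos (by linarith) _).le
    exact (pow_eq_one_iff_of_nonneg hpos hn.ne').1 hdet
  apply hg
  apply Subtype.ext
  rw [hk]
  simp only [hconst, h0]
  simp

/-! ### the ping-pong sets -/

/-- scale parameter -/
noncomputable def eps (m : ℕ) : ℝ := 1 / (8 * (m + 1))

/-- base of the lattice -/
noncomputable def Mb (m : ℕ) : ℝ := 16 * (m + 1)

/-- translation length of the unipotent -/
noncomputable def tau (m : ℕ) : ℝ := 24 * (m + 1)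

lemma eps_pos : 0 < eps m := by unfold eps; positivity

lemma eps_le : eps m ≤ 1 / 8 := by
  unfold eps
  have : (0 : ℝ) ≤ m := Nat.cast_nonneg m
  rw [div_le_div_iff₀ (by positivity) (by norm_num)]
  nlinarith

lemma Mb_gt : 1 < Mb m := by
  unfold Mb
  have : (0 : ℝ) ≤ m := Nat.cast_nonneg m
  nlinarith

lemma Mb_pos : 0 < Mb m := lt_trans zero_lt_one Mb_gt

lemma Mb_ne : Mb m ≠ 0 := Mb_pos.ne'

lemma Mb_ge : 16 ≤ Mb m := by
  unfold Mb
  have : (0 : ℝ) ≤ m := Nat.cast_nonneg m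
  nlinarith

lemma tau_eps : tau m * eps m = 3 := by
  unfold tau eps
  have : (m : ℝ) + 1 ≠ 0 := by positivity
  field_simp
  norm_num

lemma tau_pos : 0 < tau m := by unfold tau; positivity

/-- cone neighbourhood of `(1, …, 1)` -/
def S2 (m : ℕ) : Set (Fin (m + 1) → ℝ) := {x | ∃ c : ℝ, c ≠ 0 ∧ ∀ i, |x i - c| ≤ eps m * |c|}

/-- vectors far from the hyperplane `α = 0` -/
def Tset (m : ℕ) : Set (Fin (m + 1) → ℝ) :=
  {x | al m ⬝ᵥ x ≠ 0 ∧ ∀ i, |x i| ≤ 3 * |al m ⬝ᵥ x|}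

/-- the wandering cone -/
def Oset (m : ℕ) : Set (Fin (m + 1) → ℝ) :=
  {x | ∃ c : ℝ, c ≠ 0 ∧ ∀ i, |al m i * x i - c| < |c| / 2}

lemma U_maps {x : Fin (m + 1) → ℝ} (hx : x ∈ Tset m) {k : ℤ} (hk : k ≠ 0) :
    (U m (k * tau m) : Matrix (Fin (m + 1)) (Fin (m + 1)) ℝ) *ᵥ x ∈ S2 m := by
  obtain ⟨h0, hle⟩ := hx
  refine ⟨k * tau m * (al m ⬝ᵥ x), ?_, fun i => ?_⟩
  · exact mul_ne_zero (mul_ne_zero (Int.cast_ne_zero.2 hk) tau_pos.ne') h0
  · rw [U_mulVec, add_sub_cancel_right, abs_mul, abs_mul, abs_of_pos (tau_pos (m := m))]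
    have hk1 : (1 : ℝ) ≤ |(k : ℝ)| := by
      rw [← Int.cast_abs]
      exact_mod_cast Int.one_le_abs hk
    have h3 := hle i
    have habs : 0 ≤ |al m ⬝ᵥ x| := abs_nonneg _
    calc |x i| ≤ 3 * |al m ⬝ᵥ x| := h3
      _ = (tau m * eps m) * |al m ⬝ᵥ x| := by rw [tau_eps]
      _ ≤ (tau m * eps m) * |al m ⬝ᵥ x| * |(k : ℝ)| := by
          apply le_mul_of_one_le_right _ hk1
          rw [tau_eps]; positivity
      _ = eps m * (|(k : ℝ)| * tau m * |al m ⬝ᵥ x|) := by ring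

lemma diag_mulVec_apply {n : ℕ} (d x : Fin n → ℝ) (i : Fin n) :
    (diagonal d *ᵥ x) i = d i * x i := by
  rw [mulVec_diagonal]

lemma Lam_maps_S2 {a : SLR (m + 1)} (ha : a ∈ Lam (m + 1) (Mb m) Mb_ne) (ha1 : a ≠ 1)
    {x : Fin (m + 1) → ℝ} (hx : x ∈ S2 m) :
    (a : Matrix (Fin (m + 1)) (Fin (m + 1)) ℝ) *ᵥ x ∈ Tset m := by
  classical
  obtain ⟨k, hk⟩ := ha
  obtain ⟨i1, j1, hij⟩ := Lam_nonconst (Nat.succ_pos m) Mb_gt hk ha1
  obtain ⟨c, hc, hxc⟩ := hx
  -- maximal exponent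
  obtain ⟨jm, -, hjm⟩ := Finset.exists_max_image Finset.univ k ⟨i1, Finset.mem_univ _⟩
  set K := k jm with hK
  have hkK : ∀ i, k i ≤ K := fun i => hjm i (Finset.mem_univ _)
  set I : Finset (Fin (m + 1)) := Finset.univ.filter (fun i => k i = K) with hI
  have hIne : I.Nonempty := ⟨jm, by simp [hI, hK]⟩
  have hIuniv : I ≠ Finset.univ := by
    intro h
    have h1 : i1 ∈ I := h ▸ Finset.mem_univ _
    have h2 : j1 ∈ I := h ▸ Finset.mem_univ _
    simp only [hI, Finset.mem_filter, Finset.mem_univ, true_and] at h1 h2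
    omega
  have hsum := al_subset_sum I hIne hIuniv
  -- normalised coordinates
  set b : Fin (m + 1) → ℝ := fun i => (Mb m) ^ (k i - K) with hb
  have hb1 : ∀ i, k i = K → b i = 1 := by
    intro i hi; simp [hb, hi]
  have hbpos : ∀ i, 0 < b i := fun i => zpow_pos Mb_pos _
  have hb2 : ∀ i, k i ≠ K → b i ≤ 1 / Mb m := by
    intro i hi
    have hlt : k i - K ≤ -1 := by
      have := lt_of_le_of_ne (hkK i) hi
      omega
    calc b i ≤ (Mb m) ^ (-1 : ℤ) := zpow_le_zpow_right₀ Mb_gt.le hlt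
      _ = 1 / Mb m := by rw [_root_.zpow_neg_one, one_div]
  have hxabs : ∀ i, |x i| ≤ (1 + eps m) * |c| := by
    intro i
    have h1 := hxc i
    have h2 : |x i| ≤ |x i - c| + |c| := by
      have := abs_add_le (x i - c) c
      simpa using this
    linarith
  have hcpos : 0 < |c| := abs_pos.2 hc
  have heps := eps_pos (m := m)
  have heps8 := eps_le (m := m)
  have hkey : (1 + eps m) / Mb m ≤ eps m := by
    rw [div_le_iff₀ Mb_pos]
    have : eps m * Mb m = 2 := by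
      unfold eps Mb
      have : (m : ℝ) + 1 ≠ 0 := by positivity
      field_simp
      norm_num
    rw [this]; linarith
  have herr : ∀ i, |b i * x i - (if k i = K then c else 0)| ≤ eps m * |c| := by
    intro i
    split_ifs with hi
    · rw [hb1 i hi, one_mul]; exact hxc i
    · rw [sub_zero, abs_mul, abs_of_pos (hbpos i)]
      calc b i * |x i| ≤ (1 / Mb m) * ((1 + eps m) * |c|) := by
            apply mul_le_mul (hb2 i hi) (hxabs i) (abs_nonneg _)
            exact (one_div_pos.2 Mb_pos).le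
        _ = (1 + eps m) / Mb m * |c| := by ring
        _ ≤ eps m * |c| := by gcongr
  have hmain : |∑ i, al m i * (b i * x i)| ≥ 3 / 4 * |c| := by
    have hsplit : ∑ i, al m i * (b i * x i) = c * (∑ i ∈ I, al m i) +
        ∑ i, al m i * (b i * x i - (if k i = K then c else 0)) := by
      have h1 : c * (∑ i ∈ I, al m i) = ∑ i, al m i * (if k i = K then c else 0) := by
        rw [hI, Finset.sum_filter, Finset.mul_sum]
        refine Finset.sum_congr rfl fun i _ => ?_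
        split_ifs <;> ring
      rw [h1, ← Finset.sum_add_distrib]
      refine Finset.sum_congr rfl fun i _ => ?_
      ring
    have hE : |∑ i, al m i * (b i * x i - (if k i = K then c else 0))| ≤ 1 / 4 * |c| := by
      calc |∑ i, al m i * (b i * x i - (if k i = K then c else 0))|
          ≤ ∑ i, |al m i * (b i * x i - (if k i = K then c else 0))| :=
            Finset.abs_sum_le_sum_abs _ _
        _ ≤ ∑ i, |al m i| * (eps m * |c|) := by
            refine Finset.sum_le_sum fun i _ => ?_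
            rw [abs_mul]
            exact mul_le_mul_of_nonneg_left (herr i) (abs_nonneg _)
        _ = 2 * m * (eps m * |c|) := by rw [← Finset.sum_mul, al_abs_sum]
        _ ≤ 1 / 4 * |c| := by
            have : 2 * (m : ℝ) * eps m ≤ 1 / 4 := by
              unfold eps
              rw [mul_one_div, div_le_div_iff₀ (by positivity) (by norm_num)]
              nlinarith
            calc 2 * (m : ℝ) * (eps m * |c|) = (2 * m * eps m) * |c| := by ring
              _ ≤ 1 / 4 * |c| := by gcongr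
    have hlow : |c| ≤ |c * (∑ i ∈ I, al m i)| := by
      rw [abs_mul]
      exact le_mul_of_one_le_right hcpos.le hsum
    rw [hsplit]
    have := abs_sub_abs_le_abs_sub (c * (∑ i ∈ I, al m i))
      (-(∑ i, al m i * (b i * x i - (if k i = K then c else 0))))
    rw [abs_neg, sub_neg_eq_add] at this
    linarith
  have hKpos : 0 < (Mb m) ^ K := zpow_pos Mb_pos _
  have hdot : al m ⬝ᵥ ((a : Matrix (Fin (m + 1)) (Fin (m + 1)) ℝ) *ᵥ x) =
      (Mb m) ^ K * ∑ i, al m i * (b i * x i) := by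
    rw [hk, dotProduct, Finset.mul_sum]
    refine Finset.sum_congr rfl fun i _ => ?_
    rw [diag_mulVec_apply]
    have : (Mb m) ^ k i = (Mb m) ^ K * b i := by
      simp only [hb]
      rw [← zpow_add₀ Mb_ne]; congr 1; ring
    rw [this]; ring
  have habsdot : |al m ⬝ᵥ ((a : Matrix (Fin (m + 1)) (Fin (m + 1)) ℝ) *ᵥ x)| ≥
      (Mb m) ^ K * (3 / 4 * |c|) := by
    rw [hdot, abs_mul, abs_of_pos hKpos]
    exact mul_le_mul_of_nonneg_left hmain hKpos.le
  refine ⟨?_, fun i => ?_⟩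
  · intro h0
    rw [h0, abs_zero] at habsdot
    have : 0 < (Mb m) ^ K * (3 / 4 * |c|) := by positivity
    linarith
  · rw [hk, diag_mulVec_apply, ← hk, abs_mul, abs_of_pos (zpow_pos Mb_pos _)]
    calc (Mb m) ^ k i * |x i| ≤ (Mb m) ^ K * ((1 + eps m) * |c|) := by
          apply mul_le_mul (zpow_le_zpow_right₀ Mb_gt.le (hkK i)) (hxabs i) (abs_nonneg _) hKpos.le
      _ ≤ 3 * ((Mb m) ^ K * (3 / 4 * |c|)) := by
          have : (1 + eps m) * |c| ≤ 3 * (3 / 4 * |c|) := by nlinarith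
          nlinarith
      _ ≤ 3 * |al m ⬝ᵥ ((a : Matrix (Fin (m + 1)) (Fin (m + 1)) ℝ) *ᵥ x)| := by linarith

/-- sign information: elements of `c(1 ± 1/2)` have product with `c` positive -/
lemma near_mul_pos {c y : ℝ} (hc : c ≠ 0) (h : |y - c| < |c| / 2) : |c| * |c| / 2 < y * c := by
  have hcpos : 0 < |c| := abs_pos.2 hc
  have h1 : |(y - c) * c| < |c| / 2 * |c| := by
    rw [abs_mul]
    exact mul_lt_mul_of_pos_right h hcpos
  have h2 := (abs_lt.1 h1).1
  have h3 : c * c = |c| * |c| := (abs_mul_abs_self c).symm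
  nlinarith

lemma near_abs {c y : ℝ} (h : |y - c| < |c| / 2) : |y| ≤ 3 / 2 * |c| := by
  have h2 : |y| ≤ |y - c| + |c| := by
    have := abs_add_le (y - c) c
    simpa using this
  linarith

lemma Lam_maps_O (hm : 1 ≤ m) {a : SLR (m + 1)} (ha : a ∈ Lam (m + 1) (Mb m) Mb_ne)
    {x : Fin (m + 1) → ℝ} (hx : x ∈ Oset m) :
    (a : Matrix (Fin (m + 1)) (Fin (m + 1)) ℝ) *ᵥ x ∈ Tset m := by
  obtain ⟨k, hk⟩ := ha
  obtain ⟨c, hc, hxc⟩ := hx
  have hcpos : 0 < |c| := abs_pos.2 hc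
  have hdot : al m ⬝ᵥ ((a : Matrix (Fin (m + 1)) (Fin (m + 1)) ℝ) *ᵥ x) =
      ∑ i, (Mb m) ^ k i * (al m i * x i) := by
    rw [hk, dotProduct]
    refine Finset.sum_congr rfl fun i _ => ?_
    rw [diag_mulVec_apply]; ring
  have hmul : (∑ i, (Mb m) ^ k i) * (|c| * |c| / 2) ≤
      (al m ⬝ᵥ ((a : Matrix (Fin (m + 1)) (Fin (m + 1)) ℝ) *ᵥ x)) * c := by
    rw [hdot, Finset.sum_mul, Finset.sum_mul]
    refine Finset.sum_le_sum fun i _ => ?_
    have := (near_mul_pos hc (hxc i)).le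
    rw [mul_assoc]
    exact mul_le_mul_of_nonneg_left this (zpow_pos Mb_pos _).le
  have habs : (∑ i, (Mb m) ^ k i) * (|c| / 2) ≤
      |al m ⬝ᵥ ((a : Matrix (Fin (m + 1)) (Fin (m + 1)) ℝ) *ᵥ x)| := by
    have h1 := le_trans hmul (le_abs_self _)
    rw [abs_mul] at h1
    have h2 : ((∑ i, (Mb m) ^ k i) * (|c| / 2)) * |c| ≤
      |al m ⬝ᵥ ((a : Matrix (Fin (m + 1)) (Fin (m + 1)) ℝ) *ᵥ x)| * |c| := by
      calc ((∑ i, (Mb m) ^ k i) * (|c| / 2)) * |c| = (∑ i, (Mb m) ^ k i) * (|c| * |c| / 2) := by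
            ring
        _ ≤ _ := h1
    exact le_of_mul_le_mul_right h2 hcpos
  have hle : ∀ i, (Mb m) ^ k i ≤ ∑ i, (Mb m) ^ k i := fun i =>
    Finset.single_le_sum (f := fun i => (Mb m) ^ k i) (fun j _ => (zpow_pos Mb_pos _).le)
      (Finset.mem_univ i)
  have hSpos : 0 < ∑ i, (Mb m) ^ k i :=
    lt_of_lt_of_le (zpow_pos Mb_pos (k 0)) (hle 0)
  refine ⟨?_, fun i => ?_⟩
  · intro h0
    rw [h0, abs_zero] at habs
    have : 0 < (∑ i, (Mb m) ^ k i) * (|c| / 2) := by positivity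
    linarith
  · rw [hk, diag_mulVec_apply, ← hk, abs_mul, abs_of_pos (zpow_pos Mb_pos _)]
    have h1 : |x i| ≤ 3 / 2 * |c| := by
      have h2 := near_abs (hxc i)
      rw [abs_mul] at h2
      have h3 := al_one_le_abs hm i
      calc |x i| ≤ |al m i| * |x i| := le_mul_of_one_le_left (abs_nonneg _) h3
        _ ≤ _ := h2
    calc (Mb m) ^ k i * |x i| ≤ (∑ i, (Mb m) ^ k i) * (3 / 2 * |c|) := by
          apply mul_le_mul (hle i) h1 (abs_nonneg _) hSpos.le
      _ = 3 * ((∑ i, (Mb m) ^ k i) * (|c| / 2)) := by ring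
      _ ≤ _ := by linarith

/-- nontrivial lattice elements move `O` off itself -/
lemma Lam_O_disjoint {a : SLR (m + 1)} (ha : a ∈ Lam (m + 1) (Mb m) Mb_ne) (ha1 : a ≠ 1)
    {x : Fin (m + 1) → ℝ} (hx : x ∈ Oset m) :
    (a : Matrix (Fin (m + 1)) (Fin (m + 1)) ℝ) *ᵥ x ∉ Oset m := by
  rintro ⟨c', hc', hxc'⟩
  obtain ⟨k, hk⟩ := ha
  obtain ⟨i, j, hij⟩ := Lam_nonconst (Nat.succ_pos m) Mb_gt hk ha1
  obtain ⟨c, hc, hxc⟩ := hx
  have hcpos : 0 < |c| := abs_pos.2 hc
  have hcpos' : 0 < |c'| := abs_pos.2 hc'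
  have hlow : ∀ {y e : ℝ}, |y - e| < |e| / 2 → |e| / 2 ≤ |y| := by
    intro y e h
    have h2 : |e| ≤ |y - e| + |y| := by
      have := abs_add_le (e - y) y
      rw [abs_sub_comm] at this
      simpa using this
    linarith
  -- coordinates of `a x`
  have hcoord : ∀ l, |al m l * ((a : Matrix (Fin (m + 1)) (Fin (m + 1)) ℝ) *ᵥ x) l| =
      (Mb m) ^ k l * |al m l * x l| := by
    intro l
    rw [hk, diag_mulVec_apply, ← abs_of_pos (zpow_pos (Mb_pos (m := m)) (k l)), ← abs_mul]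
    congr 1
    rw [abs_of_pos (zpow_pos (Mb_pos (m := m)) (k l))]
    ring
  have h1 : |c'| / 2 ≤ (Mb m) ^ k i * (3 / 2 * |c|) := by
    calc |c'| / 2 ≤ |al m i * ((a : Matrix (Fin (m + 1)) (Fin (m + 1)) ℝ) *ᵥ x) i| :=
          hlow (hxc' i)
      _ = (Mb m) ^ k i * |al m i * x i| := hcoord i
      _ ≤ _ := mul_le_mul_of_nonneg_left (near_abs (hxc i)) (zpow_pos Mb_pos _).le
  have h2 : (Mb m) ^ k j * (|c| / 2) ≤ 3 / 2 * |c'| := by
    calc (Mb m) ^ k j * (|c| / 2) ≤ (Mb m) ^ k j * |al m j * x j| :=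
          mul_le_mul_of_nonneg_left (hlow (hxc j)) (zpow_pos Mb_pos _).le
      _ = |al m j * ((a : Matrix (Fin (m + 1)) (Fin (m + 1)) ℝ) *ᵥ x) j| := (hcoord j).symm
      _ ≤ _ := near_abs (hxc' j)
  have h3 : (Mb m) ^ k i * Mb m ≤ (Mb m) ^ k j := by
    calc (Mb m) ^ k i * Mb m = (Mb m) ^ (k i + 1) := by rw [zpow_add_one₀ Mb_ne]
      _ ≤ _ := zpow_le_zpow_right₀ Mb_gt.le (by omega)
  have hi := zpow_pos (Mb_pos (m := m)) (k i)
  have h16 := Mb_ge (m := m)
  have h4 : (Mb m) ^ k i * 16 ≤ (Mb m) ^ k j := le_trans (by gcongr) h3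
  have h5 : (Mb m) ^ k i * 16 * (|c| / 2) ≤ 3 / 2 * |c'| := le_trans (by gcongr) h2
  nlinarith [mul_pos hi hcpos]

/-- `Λ S2` is disjoint from `O` -/
lemma Lam_S2_O_disjoint (hm : 1 ≤ m) {a : SLR (m + 1)} (ha : a ∈ Lam (m + 1) (Mb m) Mb_ne)
    {x : Fin (m + 1) → ℝ} (hx : x ∈ S2 m) :
    (a : Matrix (Fin (m + 1)) (Fin (m + 1)) ℝ) *ᵥ x ∉ Oset m := by
  rintro ⟨c', hc', hxc'⟩
  obtain ⟨k, hk⟩ := ha
  obtain ⟨c, hc, hxc⟩ := hx
  have hcpos : 0 < |c| := abs_pos.2 hc
  have hsgn : ∀ l, 0 < x l * c := by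
    intro l
    have h := near_mul_pos hc (lt_of_le_of_lt (hxc l) (by
      have := eps_le (m := m)
      nlinarith : eps m * |c| < |c| / 2))
    have : 0 < |c| * |c| / 2 := by positivity
    linarith
  have hsgn' : ∀ l, 0 < al m l * ((Mb m) ^ k l * x l) * c' := by
    intro l
    have h := near_mul_pos hc' (hxc' l)
    rw [hk, diag_mulVec_apply] at h
    have hcpos' : 0 < |c'| := abs_pos.2 hc'
    have : 0 < |c'| * |c'| / 2 := by positivity
    linarith
  have h1 := hsgn' (Fin.last m)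
  have h2 := hsgn' 0
  have h0l : (0 : Fin (m + 1)) ≠ Fin.last m := by
    intro h
    have := congrArg Fin.val h
    simp at this
    omega
  rw [al_last] at h1
  rw [al_ne_last h0l, one_mul] at h2
  have hs1 := hsgn (Fin.last m)
  have hs2 := hsgn 0
  have hp1 := zpow_pos (Mb_pos (m := m)) (k (Fin.last m))
  have hp2 := zpow_pos (Mb_pos (m := m)) (k 0)
  have hm' : (1 : ℝ) ≤ m := by exact_mod_cast hm
  -- h1 : 0 < -m * (M^kl * xl) * c' ; so xl * c' < 0
  have e1 : x (Fin.last m) * c' < 0 := by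
    by_contra hcon
    push Not at hcon
    have : 0 ≤ (m : ℝ) * (Mb m) ^ k (Fin.last m) * (x (Fin.last m) * c') := by positivity
    nlinarith
  have e2 : 0 < x 0 * c' := by
    by_contra hcon
    push Not at hcon
    have : (Mb m) ^ k 0 * (x 0 * c') ≤ 0 := mul_nonpos_of_nonneg_of_nonpos hp2.le hcon
    nlinarith
  -- product of the four
  have e3 : 0 < (x (Fin.last m) * c) * (x 0 * c) := mul_pos hs1 hs2
  have e4 : (x (Fin.last m) * c') * (x 0 * c') < 0 := mul_neg_of_neg_of_pos e1 e2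
  have e5 : (x (Fin.last m) * c) * (x 0 * c) = (x (Fin.last m) * x 0) * (c * c) := by ring
  have e6 : (x (Fin.last m) * c') * (x 0 * c') = (x (Fin.last m) * x 0) * (c' * c') := by ring
  have hcc : 0 < c * c := mul_self_pos.2 hc
  have hcc' : 0 < c' * c' := mul_self_pos.2 hc'
  rw [e5] at e3
  rw [e6] at e4
  have e7 : 0 < x (Fin.last m) * x 0 := (mul_pos_iff_of_pos_right hcc).1 e3
  have e8 : x (Fin.last m) * x 0 < 0 := by
    by_contra hcon
    push Not at hcon
    have := mul_nonneg hcon hcc'.le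
    linarith
  linarith

end Pool.Agent.CartanLattice
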