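import Pool.Agent.Lib_helper9.Cartan.CartanSub

/-!
# `𝔰𝔩(n, ℝ)` is simple and `SL(n, ℝ)` is connected
-/

namespace Pool.Agent.CartanLattice

open Matrix Topology

attribute [local instance 100] LieRing.ofAssociativeRing

section simple

variable {n : ℕ}

/-- the elementary element `E_ij` of `𝔰𝔩(n, ℝ)` -/
abbrev El (i j : Fin n) (h : i ≠ j) : slR n := LieAlgebra.SpecialLinear.single i j h (1 : ℝ)

lemma El_val (i j : Fin n) (h : i ≠ j) :
    ((El i j h : slR n) : Matrix (Fin n) (Fin n) ℝ) = single i j (1 : ℝ) := rfl

lemma br_val (X Y : slR n) : ((⁅X, Y⁆ : slR n) : Matrix (Fin n) (Fin n) ℝ) =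
    X.1 * Y.1 - Y.1 * X.1 := rfl

variable (I : LieIdeal ℝ (slR n))

lemma mem_of_smul {X : slR n} {c : ℝ} (hc : c ≠ 0) (h : c • X ∈ I) : X ∈ I := by
  have := I.smul_mem c⁻¹ h
  rwa [smul_smul, inv_mul_cancel₀ hc, one_smul] at this

lemma step_offdiag {X : slR n} (hX : X ∈ I) {i j : Fin n} (hij : i ≠ j) (hne : X.1 i j ≠ 0) :
    El j i hij.symm ∈ I := by
  have h1 : ⁅⁅X, El j i hij.symm⁆, El j i hij.symm⁆ ∈ I :=
    lie_mem_left ℝ (slR n) I _ _ (lie_mem_left ℝ (slR n) I _ _ hX)
  have h2 : ⁅⁅X, El j i hij.symm⁆, El j i hij.symm⁆ = (-2 * X.1 i j) • El j i hij.symm := by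
    apply Subtype.ext
    rw [br_val, br_val]
    change _ = (-2 * X.1 i j) • (single j i (1 : ℝ) : Matrix (Fin n) (Fin n) ℝ)
    rw [El_val]
    set e : Matrix (Fin n) (Fin n) ℝ := single j i (1 : ℝ) with he
    have hee : e * e = 0 := by
      rw [he, single_mul_single_of_ne _ _ _ _ hij]
    have heXe : e * X.1 * e = X.1 i j • e := by
      rw [he, single_mul_mul_single]
      rw [smul_single]; simp
    have h3 : (X.1 * e - e * X.1) * e - e * (X.1 * e - e * X.1) = (-2 : ℝ) • (e * X.1 * e) := by
      have a1 : X.1 * e * e = 0 := by rw [mul_assoc, hee, mul_zero]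
      have a2 : e * (e * X.1) = 0 := by rw [← mul_assoc, hee, zero_mul]
      rw [sub_mul, mul_sub, a1, a2, ← mul_assoc]
      module
    rw [h3, heXe, smul_smul]
  rw [h2] at h1
  exact mem_of_smul I (mul_ne_zero (by norm_num) hne) h1

lemma br_El_El {i j k : Fin n} (hij : i ≠ j) (hjk : j ≠ k) (hik : i ≠ k) :
    ⁅(El i j hij : slR n), El j k hjk⁆ = El i k hik := by
  apply Subtype.ext
  rw [br_val]
  change single i j (1 : ℝ) * single j k (1 : ℝ) - single j k (1 : ℝ) * single i j (1 : ℝ) =
    (single i k (1 : ℝ) : Matrix (Fin n) (Fin n) ℝ)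
  rw [single_mul_single_same, single_mul_single_of_ne _ _ _ _ hik.symm, sub_zero, one_mul]

lemma step_right {i j l : Fin n} (hij : i ≠ j) (hjl : j ≠ l) (hil : i ≠ l)
    (h : El i j hij ∈ I) : El i l hil ∈ I := by
  rw [← br_El_El hij hjl hil]
  exact lie_mem_left ℝ (slR n) I _ _ h

lemma step_left {k i j : Fin n} (hki : k ≠ i) (hij : i ≠ j) (hkj : k ≠ j)
    (h : El i j hij ∈ I) : El k j hkj ∈ I := by
  rw [← br_El_El hki hij hkj]
  exact lie_mem_right ℝ (slR n) I _ _ h

lemma step_flip {i j : Fin n} (hij : i ≠ j) (h : El i j hij ∈ I) : El j i hij.symm ∈ I := by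
  refine step_offdiag I h hij ?_
  rw [El_val, single_apply_same]
  exact one_ne_zero

lemma all_El {i j : Fin n} (hij : i ≠ j) (h : El i j hij ∈ I) (k l : Fin n) (hkl : k ≠ l) :
    El k l hkl ∈ I := by
  by_cases hki : k = i
  · subst hki
    by_cases hlj : l = j
    · subst hlj; exact h
    · exact step_right I hij (fun e => hlj e.symm) hkl h
  · by_cases hlj : l = j
    · subst hlj
      exact step_left I hki hij hkl h
    · by_cases hli : l = i
      · subst hli
        have h' := step_flip I hij h
        by_cases hkj : k = j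
        · subst hkj; exact h'
        · exact step_left I hkj hij.symm hkl h'
      · have h' := step_right I hij (fun e => hlj e.symm) (fun e => hli e.symm) h
        exact step_left I hki (fun e => hli e.symm) hkl h'

lemma diff_mem {i j : Fin n} (hij : i ≠ j) (h : El i j hij ∈ I) :
    LieAlgebra.SpecialLinear.singleSubSingle i j (1 : ℝ) ∈ I := by
  have h1 : ⁅(El i j hij : slR n), El j i hij.symm⁆ ∈ I := lie_mem_left ℝ (slR n) I _ _ h
  have h2 : ⁅(El i j hij : slR n), El j i hij.symm⁆ =
      LieAlgebra.SpecialLinear.singleSubSingle i j (1 : ℝ) := by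
    apply Subtype.ext
    rw [br_val]
    change single i j (1 : ℝ) * single j i (1 : ℝ) - single j i (1 : ℝ) * single i j (1 : ℝ) =
      (single i i (1 : ℝ) - single j j (1 : ℝ) : Matrix (Fin n) (Fin n) ℝ)
    rw [single_mul_single_same, single_mul_single_same, one_mul]
  rwa [h2] at h1

lemma eq_top_of_El {i j : Fin n} (hij : i ≠ j) (h : El i j hij ∈ I) : I = ⊤ := by
  rw [eq_top_iff]
  intro X _
  -- decomposition of `X`
  have hdec : X = ∑ k, ∑ l, (if hkl : k = l then
      X.1 k k • LieAlgebra.SpecialLinear.singleSubSingle k i (1 : ℝ)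
      else X.1 k l • El k l hkl) := by
    apply Subtype.ext
    have hcoe : ∀ s : Fin n → Fin n → slR n,
        ((∑ k, ∑ l, s k l : slR n) : Matrix (Fin n) (Fin n) ℝ) =
          ∑ k, ∑ l, ((s k l : slR n) : Matrix (Fin n) (Fin n) ℝ) := by
      intro s
      simp
    rw [hcoe]
    have htr : ∑ k, X.1 k k = 0 := X.2
    have hterm : ∀ k l, (((if hkl : k = l then
        X.1 k k • LieAlgebra.SpecialLinear.singleSubSingle k i (1 : ℝ)
        else X.1 k l • El k l hkl : slR n)) : Matrix (Fin n) (Fin n) ℝ) =
        single k l (X.1 k l) - (if k = l then single i i (X.1 k k) else 0) := by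
      intro k l
      split_ifs with hkl
      · subst hkl
        change X.1 k k • (single k k (1 : ℝ) - single i i (1 : ℝ) :
          Matrix (Fin n) (Fin n) ℝ) = _
        rw [smul_sub, smul_single, smul_single, smul_eq_mul, mul_one]
      · change X.1 k l • (single k l (1 : ℝ) : Matrix (Fin n) (Fin n) ℝ) = _
        rw [smul_single, smul_eq_mul, mul_one, sub_zero]
    simp only [hterm, Finset.sum_sub_distrib]
    rw [← matrix_eq_sum_single]
    have h0 : ∑ k : Fin n, ∑ l : Fin n, (if k = l then single i i (X.1 k k) else 0 :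
        Matrix (Fin n) (Fin n) ℝ) = 0 := by
      have : ∀ k : Fin n, ∑ l : Fin n, (if k = l then single i i (X.1 k k) else 0 :
        Matrix (Fin n) (Fin n) ℝ) = single i i (X.1 k k) := by
        intro k
        rw [Finset.sum_ite_eq]; simp
      simp only [this]
      have h3 : ∑ k, (single i i (X.1 k k) : Matrix (Fin n) (Fin n) ℝ) =
          single i i (∑ k, X.1 k k) := by
        rw [← Matrix.singleLinearMap_apply ℝ i i]
        simp [map_sum]
      rw [h3, htr, single_zero]
    rw [h0, sub_zero]
  rw [hdec]
  refine I.toSubmodule.sum_mem fun k _ => I.toSubmodule.sum_mem fun l _ => ?_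
  split_ifs with hkl
  · refine I.smul_mem _ ?_
    by_cases hki : k = i
    · subst hki
      have : LieAlgebra.SpecialLinear.singleSubSingle k k (1 : ℝ) = (0 : slR n) := by
        apply Subtype.ext
        change (single k k (1 : ℝ) - single k k (1 : ℝ) : Matrix (Fin n) (Fin n) ℝ) = 0
        rw [sub_self]
      rw [this]; exact I.zero_mem
    · exact diff_mem I hki (all_El I hij h k i hki)
  · exact I.smul_mem _ (all_El I hij h k l hkl)

theorem sl_simple (hn : 2 ≤ n) : LieAlgebra.IsSimple ℝ (slR n) where
  non_abelian := LieAlgebra.SpecialLinear.sl_non_abelian (Fin n) ℝ (by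
    rw [Fintype.card_fin]; omega)
  eq_bot_or_eq_top := by
    intro I
    by_cases hI : I = ⊥
    · exact Or.inl hI
    right
    rw [LieSubmodule.eq_bot_iff] at hI
    push Not at hI
    obtain ⟨X, hX, hX0⟩ := hI
    by_cases hoff : ∃ i j, i ≠ j ∧ X.1 i j ≠ 0
    · obtain ⟨i, j, hij, hne⟩ := hoff
      exact eq_top_of_El I hij.symm (step_offdiag I hX hij hne)
    · push Not at hoff
      -- diagonal case
      have hdiag : X.1 = diagonal fun i => X.1 i i := by
        ext k l
        by_cases hkl : k = l
        · subst hkl; simp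
        · rw [hoff k l hkl, diagonal_apply_ne _ hkl]
      have hex : ∃ i j, X.1 i i ≠ X.1 j j := by
        by_contra hcon
        push Not at hcon
        have h0n : 0 < n := by omega
        let z : Fin n := ⟨0, h0n⟩
        have htr : ∑ k, X.1 k k = 0 := X.2
        have h1 : ∑ k, X.1 k k = n * X.1 z z := by
          rw [Finset.sum_congr rfl fun k _ => hcon k z]
          simp
        rw [h1] at htr
        have hz : X.1 z z = 0 := by
          rcases mul_eq_zero.1 htr with h | h
          · have : n = 0 := by exact_mod_cast h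
            omega
          · exact h
        apply hX0
        apply Subtype.ext
        rw [hdiag]
        have : (fun i => X.1 i i) = fun _ => (0 : ℝ) := by
          funext i
          rw [hcon i z, hz]
        rw [this]
        simp
      obtain ⟨i, j, hne⟩ := hex
      have hij : i ≠ j := by rintro rfl; exact hne rfl
      have h1 : ⁅X, El i j hij⁆ ∈ I := lie_mem_left ℝ (slR n) I _ _ hX
      have h2 : ⁅X, El i j hij⁆ = (X.1 i i - X.1 j j) • El i j hij := by
        apply Subtype.ext
        rw [br_val]
        change X.1 * single i j (1 : ℝ) - single i j (1 : ℝ) * X.1 =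
          (X.1 i i - X.1 j j) • (single i j (1 : ℝ) : Matrix (Fin n) (Fin n) ℝ)
        rw [hdiag]
        ext k l
        rw [Matrix.sub_apply, diagonal_mul, mul_diagonal, Matrix.smul_apply, smul_eq_mul]
        by_cases hk : i = k
        · by_cases hl : j = l
          · subst hk hl; simp
          · simp [hl]
        · simp [hk]
      rw [h2] at h1
      exact eq_top_of_El I hij (mem_of_smul I (sub_ne_zero.2 hne) h1)

end simple

/-! ### connectedness -/

theorem connectedSpace_SL {n : ℕ} (hn : 2 ≤ n) : ConnectedSpace (SLR n) := by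
  have : Nontrivial (Fin n) := Fin.nontrivial_iff_two_le.2 hn
  have key : ∀ g : SLR n, g ∈ Subgroup.connectedComponentOfOne (SLR n) := by
    intro g
    refine Gen.transvection_induction
      (fun g => g ∈ Subgroup.connectedComponentOfOne (SLR n)) ?_ (fun A B hA hB => mul_mem hA hB) g
    intro i j hij c
    have hcont : Continuous fun r : ℝ => (SpecialLinearGroup.transvection hij r : SLR n) := by
      refine Continuous.subtype_mk ?_ _
      refine continuous_matrix fun k l => ?_
      simp only [Matrix.transvection, Matrix.add_apply, Matrix.single_apply]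
      refine continuous_const.add ?_
      split_ifs <;> fun_prop
    have hconn : IsPreconnected (Set.range fun r : ℝ =>
        (SpecialLinearGroup.transvection hij r : SLR n)) := isPreconnected_range hcont
    have h1 : (1 : SLR n) ∈ Set.range fun r : ℝ =>
        (SpecialLinearGroup.transvection hij r : SLR n) :=
      ⟨0, SpecialLinearGroup.transvection_coeff_zero hij⟩
    exact hconn.subset_connectedComponent h1 ⟨c, rfl⟩
  have huniv : connectedComponent (1 : SLR n) = Set.univ := by
    rw [Set.eq_univ_iff_forall]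
    exact key
  rw [connectedSpace_iff_univ, ← huniv]
  exact isConnected_connectedComponent

end Pool.Agent.CartanLattice
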