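import Pool.Agent.Lib_helper9.Cartan.Group
import Pool.Agent.Lib_helper9.Cartan.SLgen

/-!
# Zariski density of `Γ`
-/

namespace Pool.Agent.CartanLattice

open Matrix Topology Polynomial

attribute [local instance 100] LieRing.ofAssociativeRing

/-! ### regular functions on `SL(n, ℝ)` -/

/-- regular functions: polynomials in the matrix entries -/
def regFun (n : ℕ) : Subalgebra ℝ (SLR n → ℝ) :=
  Algebra.adjoin ℝ (Set.range fun p : Fin n × Fin n => fun g : SLR n =>
    (g : Matrix (Fin n) (Fin n) ℝ) p.1 p.2)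

lemma entry_mem {n : ℕ} (i j : Fin n) :
    (fun g : SLR n => (g : Matrix (Fin n) (Fin n) ℝ) i j) ∈ regFun n :=
  Algebra.subset_adjoin ⟨(i, j), rfl⟩

lemma regFun_comp {n : ℕ} {T : Type*} (S : Subalgebra ℝ (T → ℝ)) (F : T → SLR n)
    (hF : ∀ i j, (fun t => (F t : Matrix (Fin n) (Fin n) ℝ) i j) ∈ S) {f : SLR n → ℝ}
    (hf : f ∈ regFun n) : (fun t => f (F t)) ∈ S := by
  unfold regFun at hf
  induction hf using Algebra.adjoin_induction with
  | mem x hx =>
    obtain ⟨p, rfl⟩ := hx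
    exact hF p.1 p.2
  | algebraMap r => exact S.algebraMap_mem r
  | add x y _ _ hx hy => exact S.add_mem hx hy
  | mul x y _ _ hx hy => exact S.mul_mem hx hy

lemma regFun_left {n : ℕ} (h : SLR n) {f : SLR n → ℝ} (hf : f ∈ regFun n) :
    (fun g => f (h * g)) ∈ regFun n := by
  refine regFun_comp (regFun n) (fun g => h * g) (fun i j => ?_) hf
  have : (fun g : SLR n => ((h * g : SLR n) : Matrix (Fin n) (Fin n) ℝ) i j) =
      ∑ k, (h : Matrix (Fin n) (Fin n) ℝ) i k • fun g : SLR n =>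
        (g : Matrix (Fin n) (Fin n) ℝ) k j := by
    funext g
    rw [Matrix.SpecialLinearGroup.coe_mul, Matrix.mul_apply, Finset.sum_apply]
    rfl
  rw [this]
  exact Subalgebra.sum_mem _ fun k _ => Subalgebra.smul_mem _ (entry_mem k j) _

lemma regFun_right {n : ℕ} (h : SLR n) {f : SLR n → ℝ} (hf : f ∈ regFun n) :
    (fun g => f (g * h)) ∈ regFun n := by
  refine regFun_comp (regFun n) (fun g => g * h) (fun i j => ?_) hf
  have : (fun g : SLR n => ((g * h : SLR n) : Matrix (Fin n) (Fin n) ℝ) i j) =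
      ∑ k, (h : Matrix (Fin n) (Fin n) ℝ) k j • fun g : SLR n =>
        (g : Matrix (Fin n) (Fin n) ℝ) i k := by
    funext g
    rw [Matrix.SpecialLinearGroup.coe_mul, Matrix.mul_apply, Finset.sum_apply]
    refine Finset.sum_congr rfl fun k _ => ?_
    simp [mul_comm]
  rw [this]
  exact Subalgebra.sum_mem _ fun k _ => Subalgebra.smul_mem _ (entry_mem i k) _

/-- continuous functions as a subalgebra -/
def contSub (X : Type*) [TopologicalSpace X] : Subalgebra ℝ (X → ℝ) where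
  carrier := {f | Continuous f}
  mul_mem' := fun ha hb => Continuous.mul ha hb
  add_mem' := fun ha hb => Continuous.add ha hb
  algebraMap_mem' := fun r => by
    change Continuous fun _ : X => r
    exact continuous_const

lemma regFun_continuous {n : ℕ} {f : SLR n → ℝ} (hf : f ∈ regFun n) : Continuous f := by
  refine regFun_comp (contSub (SLR n)) id (fun i j => ?_) hf
  change Continuous fun g : SLR n => (g : Matrix (Fin n) (Fin n) ℝ) i j
  exact (continuous_subtype_val.matrix_elem i j)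

/-! ### the inverse is regular -/

lemma inv_entry_mem {n : ℕ} (i j : Fin n) :
    (fun g : SLR n => ((g⁻¹ : SLR n) : Matrix (Fin n) (Fin n) ℝ) i j) ∈ regFun n := by
  have : (fun g : SLR n => ((g⁻¹ : SLR n) : Matrix (Fin n) (Fin n) ℝ) i j) =
      ∑ σ : Equiv.Perm (Fin n), ((Equiv.Perm.sign σ : ℤ) : ℝ) • ∏ k : Fin n, fun g : SLR n =>
        (updateRow (g : Matrix (Fin n) (Fin n) ℝ) j (Pi.single i 1)) (σ k) k := by
    funext g
    rw [Matrix.SpecialLinearGroup.coe_inv, adjugate_apply, det_apply', Finset.sum_apply]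
    refine Finset.sum_congr rfl fun σ _ => ?_
    rw [Pi.smul_apply, Finset.prod_apply, smul_eq_mul]
  rw [this]
  refine Subalgebra.sum_mem _ fun σ _ => Subalgebra.smul_mem _ ?_ _
  refine Subalgebra.prod_mem _ fun k _ => ?_
  by_cases h : σ k = j
  · have : (fun g : SLR n =>
        (updateRow (g : Matrix (Fin n) (Fin n) ℝ) j (Pi.single i 1)) (σ k) k) =
        algebraMap ℝ (SLR n → ℝ) ((Pi.single i 1 : Fin n → ℝ) k) := by
      funext g
      rw [h, updateRow_self]; rfl
    rw [this]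
    exact Subalgebra.algebraMap_mem _ _
  · have : (fun g : SLR n =>
        (updateRow (g : Matrix (Fin n) (Fin n) ℝ) j (Pi.single i 1)) (σ k) k) =
        fun g : SLR n => (g : Matrix (Fin n) (Fin n) ℝ) (σ k) k := by
      funext g
      rw [updateRow_ne h]
    rw [this]
    exact entry_mem _ _

/-! ### polynomial functions of `Ad g` are regular -/

/-- projection onto the traceless matrices -/
noncomputable def projSl (n : ℕ) (hn : n ≠ 0) : Matrix (Fin n) (Fin n) ℝ →ₗ[ℝ] slR n :=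
  LinearMap.codRestrict (slR n).toSubmodule
    (LinearMap.id - (LinearMap.smulRight (Matrix.traceLinearMap (Fin n) ℝ ℝ)
      ((n : ℝ)⁻¹ • (1 : Matrix (Fin n) (Fin n) ℝ)))) (fun X => by
    change Matrix.trace (X - Matrix.trace X • ((n : ℝ)⁻¹ • (1 : Matrix (Fin n) (Fin n) ℝ))) = 0
    rw [Matrix.trace_sub, Matrix.trace_smul, Matrix.trace_smul, Matrix.trace_one,
      Fintype.card_fin]
    have : (n : ℝ) ≠ 0 := by exact_mod_cast hn
    simp [this])

lemma projSl_coe {n : ℕ} (hn : n ≠ 0) (X : Matrix (Fin n) (Fin n) ℝ) (hX : Matrix.trace X = 0) :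
    ((projSl n hn X : slR n) : Matrix (Fin n) (Fin n) ℝ) = X := by
  change X - Matrix.trace X • ((n : ℝ)⁻¹ • (1 : Matrix (Fin n) (Fin n) ℝ)) = X
  rw [hX, zero_smul, sub_zero]

/-- the bilinear map `(P, Q) ↦ (X ↦ proj (P X Q))` -/
noncomputable def bilAd (n : ℕ) (hn : n ≠ 0) :
    Matrix (Fin n) (Fin n) ℝ →ₗ[ℝ] Matrix (Fin n) (Fin n) ℝ →ₗ[ℝ] Module.End ℝ (slR n) :=
  LinearMap.mk₂ ℝ (fun P Q => projSl n hn ∘ₗ (LinearMap.mulLeft ℝ P) ∘ₗ (LinearMap.mulRight ℝ Q) ∘ₗ
      (slR n).toSubmodule.subtype)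
    (fun P P' Q => by
      ext X : 1
      simp [add_mul])
    (fun c P Q => by
      ext X : 1
      simp)
    (fun P Q Q' => by
      ext X : 1
      simp [mul_add])
    (fun c P Q => by
      ext X : 1
      simp)

lemma bilAd_self {n : ℕ} (hn : n ≠ 0) (g : SLR n) :
    bilAd n hn (g : Matrix (Fin n) (Fin n) ℝ) ((g⁻¹ : SLR n) : Matrix (Fin n) (Fin n) ℝ) = Ad g := by
  ext X : 1
  apply Subtype.ext
  change ((projSl n hn ((g : Matrix (Fin n) (Fin n) ℝ) *
    (X.1 * ((g⁻¹ : SLR n) : Matrix (Fin n) (Fin n) ℝ))) : slR n) : Matrix (Fin n) (Fin n) ℝ) = _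
  have h := (Ad g X).2
  have h' : Matrix.trace ((g : Matrix (Fin n) (Fin n) ℝ) * X.1 *
      ((g⁻¹ : SLR n) : Matrix (Fin n) (Fin n) ℝ)) = 0 := h
  rw [← mul_assoc, projSl_coe hn _ h']
  rfl

lemma polyFun_Ad {n : ℕ} (hn : n ≠ 0) {f : Module.End ℝ (slR n) → ℝ}
    (hf : f ∈ polyFun (Module.End ℝ (slR n))) : (fun g : SLR n => f (Ad g)) ∈ regFun n := by
  unfold polyFun at hf
  induction hf using Algebra.adjoin_induction with
  | mem x hx =>
    obtain ⟨φ, rfl⟩ := hx
    have key : (fun g : SLR n => φ (Ad g)) =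
        ∑ i, ∑ j, ∑ k, ∑ l, (φ (bilAd n hn (single k l 1) (single i j 1))) •
          ((fun g : SLR n => (g : Matrix (Fin n) (Fin n) ℝ) k l) *
            (fun g : SLR n => ((g⁻¹ : SLR n) : Matrix (Fin n) (Fin n) ℝ) i j)) := by
      funext g
      rw [← bilAd_self hn g]
      conv_lhs => rw [matrix_eq_sum_single (g : Matrix (Fin n) (Fin n) ℝ),
        matrix_eq_sum_single ((g⁻¹ : SLR n) : Matrix (Fin n) (Fin n) ℝ)]
      simp only [map_sum, LinearMap.sum_apply, Finset.sum_apply]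
      refine Finset.sum_congr rfl fun i _ => Finset.sum_congr rfl fun j _ => ?_
      refine Finset.sum_congr rfl fun k _ => Finset.sum_congr rfl fun l _ => ?_
      have h1 : (single k l ((g : Matrix (Fin n) (Fin n) ℝ) k l) : Matrix (Fin n) (Fin n) ℝ) =
          ((g : Matrix (Fin n) (Fin n) ℝ) k l) • single k l 1 := by
        rw [smul_single]; simp
      have h2 : (single i j (((g⁻¹ : SLR n) : Matrix (Fin n) (Fin n) ℝ) i j) :
          Matrix (Fin n) (Fin n) ℝ) =
          (((g⁻¹ : SLR n) : Matrix (Fin n) (Fin n) ℝ) i j) • single i j 1 := by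
        rw [smul_single]; simp
      rw [h1, h2]
      simp only [map_smul, LinearMap.smul_apply, smul_eq_mul, Pi.smul_apply, Pi.mul_apply]
      ring
    rw [key]
    refine Subalgebra.sum_mem _ fun i _ => Subalgebra.sum_mem _ fun j _ =>
      Subalgebra.sum_mem _ fun k _ => Subalgebra.sum_mem _ fun l _ => Subalgebra.smul_mem _ ?_ _
    exact Subalgebra.mul_mem _ (entry_mem k l) (inv_entry_mem i j)
  | algebraMap r => exact (regFun n).algebraMap_mem r
  | add x y _ _ hx hy => exact (regFun n).add_mem hx hy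
  | mul x y _ _ hx hy => exact (regFun n).mul_mem hx hy

/-! ### the Zariski closure -/

/-- the Zariski closure of a subgroup of `SL(n, ℝ)` -/
def zcl {n : ℕ} (Γ : Subgroup (SLR n)) : Set (SLR n) :=
  {h | ∀ f ∈ regFun n, (∀ γ ∈ Γ, f γ = 0) → f h = 0}

lemma subset_zcl {n : ℕ} {Γ : Subgroup (SLR n)} {g : SLR n} (hg : g ∈ Γ) : g ∈ zcl Γ :=
  fun _ _ h => h g hg

lemma zcl_mul {n : ℕ} {Γ : Subgroup (SLR n)} {a b : SLR n} (ha : a ∈ zcl Γ) (hb : b ∈ zcl Γ) :
    a * b ∈ zcl Γ := by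
  intro f hf hΓ
  have h1 : ∀ γ ∈ Γ, f (γ * b) = 0 := fun γ hγ =>
    hb (fun g => f (γ * g)) (regFun_left γ hf) (fun γ' hγ' => hΓ _ (mul_mem hγ hγ'))
  exact ha (fun g => f (g * b)) (regFun_right b hf) h1

lemma isClosed_zcl {n : ℕ} (Γ : Subgroup (SLR n)) : IsClosed (zcl Γ) := by
  have : zcl Γ = ⋂ f ∈ {f : SLR n → ℝ | f ∈ regFun n ∧ ∀ γ ∈ Γ, f γ = 0}, {h | f h = 0} := by
    ext h
    simp only [zcl, Set.mem_ofPred_eq, Set.mem_iInter, and_imp]
  rw [this]
  refine isClosed_biInter fun f hf => ?_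
  exact isClosed_eq (regFun_continuous hf.1) continuous_const

/-! ### Laurent functions -/

/-- functions of `t ≠ 0` given by Laurent polynomials -/
def LP : Subalgebra ℝ (ℝ → ℝ) where
  carrier := {φ | ∃ (P : ℝ[X]) (N : ℕ), ∀ t : ℝ, t ≠ 0 → φ t * t ^ N = P.eval t}
  mul_mem' := by
    rintro a b ⟨P, N, hP⟩ ⟨Q, K, hQ⟩
    refine ⟨P * Q, N + K, fun t ht => ?_⟩
    rw [Polynomial.eval_mul, ← hP t ht, ← hQ t ht, Pi.mul_apply, pow_add]
    ring
  add_mem' := by
    rintro a b ⟨P, N, hP⟩ ⟨Q, K, hQ⟩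
    refine ⟨P * X ^ K + Q * X ^ N, N + K, fun t ht => ?_⟩
    rw [Polynomial.eval_add, Polynomial.eval_mul, Polynomial.eval_mul, ← hP t ht, ← hQ t ht,
      Pi.add_apply, pow_add]
    simp only [eval_pow, eval_X]
    ring
  algebraMap_mem' := fun r => ⟨C r, 0, fun t _ => by simp⟩

lemma LP_const (c : ℝ) : (fun _ : ℝ => c) ∈ LP := LP.algebraMap_mem c

lemma LP_id : (fun t : ℝ => t) ∈ LP := ⟨X, 0, fun t _ => by simp⟩

lemma LP_congr {φ ψ : ℝ → ℝ} (h : ∀ t ≠ 0, φ t = ψ t) (hψ : ψ ∈ LP) : φ ∈ LP := by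
  obtain ⟨P, N, hP⟩ := hψ
  exact ⟨P, N, fun t ht => by rw [h t ht]; exact hP t ht⟩

lemma LP_inv : (fun t : ℝ => t⁻¹) ∈ LP := ⟨1, 1, fun t ht => by simp [ht]⟩

lemma LP_zero {φ : ℝ → ℝ} (hφ : φ ∈ LP) {s : Set ℝ} (hs : s.Infinite)
    (h0 : ∀ t ∈ s, t ≠ 0) (h : ∀ t ∈ s, φ t = 0) : ∀ t ≠ 0, φ t = 0 := by
  obtain ⟨P, N, hP⟩ := hφ
  have hP0 : P = 0 := by
    refine Polynomial.eq_zero_of_infinite_isRoot P (hs.mono fun t ht => ?_)
    change P.eval t = 0
    rw [← hP t (h0 t ht), h t ht, zero_mul]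
  intro t ht
  have := hP t ht
  rw [hP0, Polynomial.eval_zero] at this
  exact (mul_eq_zero.1 this).resolve_right (pow_ne_zero _ ht)

/-! ### the closure of `Γ` is everything -/

variable {m : ℕ}

lemma U_mem_zcl (t : ℝ) : U m t ∈ zcl (Gam m) := by
  by_cases ht : t = 0
  · subst ht
    rw [U_zero]; exact subset_zcl (one_mem _)
  intro f hf hΓ
  have hLP : (fun t => f (U m t)) ∈ LP := by
    refine regFun_comp LP (fun t => U m t) (fun i j => ?_) hf
    have : (fun t => (U m t : Matrix (Fin (m + 1)) (Fin (m + 1)) ℝ) i j) =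
        (fun _ : ℝ => (1 : Matrix (Fin (m + 1)) (Fin (m + 1)) ℝ) i j) +
          (fun t : ℝ => t) * (fun _ : ℝ => al m j) := by
      funext t
      simp [U, tv_coe, vecMulVec_apply]
    rw [this]
    exact LP.add_mem (LP_const _) (LP.mul_mem LP_id (LP_const _))
  have hinj : Function.Injective fun k : ℕ => ((k + 1 : ℕ) : ℝ) * tau m := by
    intro a b hab
    have := mul_right_cancel₀ tau_pos.ne' hab
    have : a + 1 = b + 1 := by exact_mod_cast this
    omega
  refine LP_zero hLP (s := Set.range fun k : ℕ => ((k + 1 : ℕ) : ℝ) * tau m)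
    (Set.infinite_range_of_injective hinj) ?_ ?_ t ht
  · rintro _ ⟨k, rfl⟩
    exact mul_ne_zero (by positivity) tau_pos.ne'
  · rintro _ ⟨k, rfl⟩
    have := Uz_mem_Gam (m := m) ((k + 1 : ℕ) : ℤ)
    rw [Int.cast_natCast] at this
    exact hΓ _ this

/-- `diag(…, t at i, …, t⁻¹ at j, …)` -/
noncomputable def dg {i j : Fin (m + 1)} (hij : i ≠ j) (t : ℝ) : SLR (m + 1) :=
  if ht : t ≠ 0 then SpecialLinearGroup.diag2n hij t ht else 1

lemma dg_coe {i j : Fin (m + 1)} (hij : i ≠ j) {t : ℝ} (ht : t ≠ 0) :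
    (dg hij t : Matrix (Fin (m + 1)) (Fin (m + 1)) ℝ) =
      diagonal fun k => if k = i then t else if k = j then t⁻¹ else 1 := by
  rw [dg, dif_pos ht]
  exact SpecialLinearGroup.diag2n_coe hij t ht

lemma dg_Mb_mem {i j : Fin (m + 1)} (hij : i ≠ j) (k : ℤ) : dg hij (Mb m ^ k) ∈ Gam m := by
  refine LamM_le_Gam ⟨fun l => if l = i then k else if l = j then -k else 0, ?_⟩
  rw [dg_coe hij (zpow_ne_zero _ Mb_ne)]
  congr 1
  funext l
  by_cases h1 : l = i
  · simp [h1]
  · by_cases h2 : l = j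
    · simp [h2, hij.symm]
    · simp [h1, h2]

lemma dg_mem_zcl {i j : Fin (m + 1)} (hij : i ≠ j) {t : ℝ} (ht : t ≠ 0) :
    dg hij t ∈ zcl (Gam m) := by
  intro f hf hΓ
  have hLP : (fun t => f (dg hij t)) ∈ LP := by
    refine regFun_comp LP (fun t => dg hij t) (fun k l => ?_) hf
    have h1 : ∀ t ≠ 0, (dg hij t : Matrix (Fin (m + 1)) (Fin (m + 1)) ℝ) k l =
        (diagonal (fun k => if k = i then t else if k = j then t⁻¹ else 1) :
          Matrix (Fin (m + 1)) (Fin (m + 1)) ℝ) k l := by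
      intro t ht
      rw [dg_coe hij ht]
    refine LP_congr h1 ?_
    by_cases hkl : k = l
    · subst hkl
      simp only [diagonal_apply_eq]
      by_cases hki : k = i
      · simp only [hki, if_true]; exact LP_id
      · by_cases hkj : k = j
        · simp only [hkj, if_true, if_neg hij.symm]; exact LP_inv
        · simp only [hki, hkj, if_false]; exact LP_const 1
    · have : (fun t : ℝ => (diagonal (fun k => if k = i then t else if k = j then t⁻¹ else 1) :
          Matrix (Fin (m + 1)) (Fin (m + 1)) ℝ) k l) = fun _ => 0 := by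
        funext t
        rw [diagonal_apply_ne _ hkl]
      rw [this]; exact LP_const 0
  have hinj : Function.Injective fun k : ℕ => (Mb m) ^ (k : ℤ) := by
    intro a b hab
    have := zpow_right_injective₀ Mb_pos Mb_gt.ne' hab
    exact_mod_cast this
  refine LP_zero hLP (s := Set.range fun k : ℕ => (Mb m) ^ (k : ℤ))
    (Set.infinite_range_of_injective hinj) ?_ ?_ t ht
  · rintro _ ⟨k, rfl⟩
    exact zpow_ne_zero _ Mb_ne
  · rintro _ ⟨k, rfl⟩
    exact hΓ _ (dg_Mb_mem hij _)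

section family

variable {i j : Fin (m + 1)}

/-- left vector of the contracting family -/
noncomputable def fv (i j : Fin (m + 1)) (s r : ℝ) : Fin (m + 1) → ℝ :=
  fun k => s * (al m j)⁻¹ * (if k = i then 1 else if k = j then r ^ 2 else r)

/-- right vector of the contracting family -/
noncomputable def fw (i j : Fin (m + 1)) (r : ℝ) : Fin (m + 1) → ℝ :=
  fun l => al m l * (if l = i then r ^ 2 else if l = j then 1 else r)

lemma fw_dot_fv (hij : i ≠ j) (s r : ℝ) : fw i j r ⬝ᵥ fv i j s r = 0 := by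
  have : ∀ l, fw i j r l * fv i j s r l = al m l * (s * (al m j)⁻¹ * r ^ 2) := by
    intro l
    unfold fw fv
    by_cases h1 : l = i
    · subst h1; simp; ring
    · by_cases h2 : l = j
      · subst h2; simp [hij.symm]
      · simp [h1, h2]; ring
  simp only [dotProduct, this, ← Finset.sum_mul, al_sum, zero_mul]

/-- the contracting family -/
noncomputable def fam (hij : i ≠ j) (s r : ℝ) : SLR (m + 1) :=
  tv (fv i j s r) (fw i j r) (fw_dot_fv hij s r)

lemma fam_eq (hij : i ≠ j) (s : ℝ) {r : ℝ} (hr : r ≠ 0) :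
    fam hij s r = dg hij r⁻¹ * U m (s * (al m j)⁻¹ * r ^ 2) * dg hij r := by
  apply Subtype.ext
  rw [Matrix.SpecialLinearGroup.coe_mul, Matrix.SpecialLinearGroup.coe_mul,
    dg_coe hij (inv_ne_zero hr), dg_coe hij hr]
  ext k l
  rw [mul_diagonal, diagonal_mul]
  simp only [fam, tv_coe, U, Matrix.add_apply, vecMulVec_apply, fv, fw, Matrix.one_apply]
  by_cases h1 : k = i <;> by_cases h2 : k = j <;> by_cases h3 : l = i <;> by_cases h4 : l = j <;>
    by_cases h5 : k = l <;> simp_all <;> (try field_simp)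

lemma fam_zero (hm : 1 ≤ m) (hij : i ≠ j) (s : ℝ) :
    fam hij s 0 = SpecialLinearGroup.transvection hij s := by
  apply Subtype.ext
  rw [SpecialLinearGroup.transvection_coe]
  ext k l
  have h0 := al_ne_zero hm j
  simp only [fam, tv_coe, Matrix.add_apply, vecMulVec_apply, fv, fw, Matrix.single_apply]
  by_cases h1 : k = i
  · by_cases h2 : l = j
    · subst h1 h2
      simp [hij.symm, h0]
    · subst h1
      by_cases h3 : l = k
      · subst h3; simp
        intro h; exact absurd h.symm h2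
      · simp [h2, h3]
        intro h; exact absurd h.symm h2
  · have h1' : i ≠ k := fun h => h1 h.symm
    simp [h1, h1']

lemma fam_continuous (hij : i ≠ j) (s : ℝ) : Continuous fun r => fam (m := m) hij s r := by
  refine Continuous.subtype_mk ?_ _
  refine continuous_matrix fun k l => ?_
  simp only [Matrix.add_apply, vecMulVec_apply, fv, fw]
  refine continuous_const.add (Continuous.mul (continuous_const.mul ?_) (continuous_const.mul ?_))
  · split_ifs <;> fun_prop
  · split_ifs <;> fun_prop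

lemma transvection_mem_zcl (hm : 1 ≤ m) (hij : i ≠ j) (s : ℝ) :
    (SpecialLinearGroup.transvection hij s : SLR (m + 1)) ∈ zcl (Gam m) := by
  rw [← fam_zero hm hij s]
  have hclosed : IsClosed {r : ℝ | fam (m := m) hij s r ∈ zcl (Gam m)} :=
    (isClosed_zcl _).preimage (fam_continuous hij s)
  have hsub : ({0}ᶜ : Set ℝ) ⊆ {r : ℝ | fam (m := m) hij s r ∈ zcl (Gam m)} := by
    intro r hr
    have hr' : r ≠ 0 := hr
    change fam hij s r ∈ zcl (Gam m)
    rw [fam_eq hij s hr']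
    exact zcl_mul (zcl_mul (dg_mem_zcl hij (inv_ne_zero hr')) (U_mem_zcl _)) (dg_mem_zcl hij hr')
  have hcl : closure ({0}ᶜ : Set ℝ) ⊆ {r : ℝ | fam (m := m) hij s r ∈ zcl (Gam m)} :=
    hclosed.closure_subset_iff.2 hsub
  have : (0 : ℝ) ∈ closure ({0}ᶜ : Set ℝ) := by
    rw [(dense_compl_singleton (0 : ℝ)).closure_eq]; trivial
  exact hcl this

end family

theorem zcl_eq_univ (hm : 1 ≤ m) (g : SLR (m + 1)) : g ∈ zcl (Gam m) := by
  have : Nontrivial (Fin (m + 1)) := Fin.nontrivial_iff_two_le.2 (by omega)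
  exact Gen.transvection_induction (fun g => g ∈ zcl (Gam m))
    (fun i j h c => transvection_mem_zcl hm h c) (fun A B hA hB => zcl_mul hA hB) g

theorem Gam_zariskiDense (hm : 1 ≤ m) : IsZariskiDense (Gam m) := by
  intro f hf hΓ g
  exact zcl_eq_univ hm g _ (polyFun_Ad (Nat.succ_ne_zero m) hf) hΓ

end Pool.Agent.CartanLattice
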